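import Pool.Agent.Y976.WP.Explore

set_option autoImplicit false
set_option linter.unusedSectionVars false
set_option linter.unusedVariables false

/-! Two consequences of the exploration inequality: a recursive bound for the probability that the
cluster is infinite, and a bound for the mean size. -/

namespace Pool.Agent.Y976.WP

open MeasureTheory ProbabilityTheory Set
open scoped ENNReal

theorem sbd_min (n : ℝ≥0∞) : Sbd (fun x => min x n) where
  mono := fun x y h => min_le_min h le_rfl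
  zero := by simp
  add := fun x y => by
    rcases le_total x n with hx | hx
    · rcases le_total y n with hy | hy
      · simp only [min_eq_left hx, min_eq_left hy]
        exact min_le_left _ _
      · simp only [min_eq_right hy]
        exact (min_le_right _ _).trans le_add_self
    · simp only [min_eq_right hx]
      exact (min_le_right _ _).trans le_self_add

open Classical in
/-- indicator of infinity -/
noncomputable def hinf (x : ℝ≥0∞) : ℝ≥0∞ := if x = ⊤ then 1 else 0

theorem sbd_inf : Sbd hinf where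
  mono := fun x y h => by
    unfold hinf
    by_cases hx : x = ⊤
    · subst hx
      rw [top_le_iff] at h
      subst h
      exact le_rfl
    · rw [if_neg hx]; exact zero_le
  zero := by simp [hinf]
  add := fun x y => by
    unfold hinf
    by_cases hx : x = ⊤
    · rw [if_pos hx, if_pos (by rw [hx]; simp)]
      exact le_self_add
    · by_cases hy : y = ⊤
      · rw [if_pos hy, if_pos (by rw [hy]; simp)]
        exact le_add_self
      · rw [if_neg (by rw [ENNReal.add_eq_top]; tauto)]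
        exact zero_le

variable {V : Type} [Countable V] {G : SimpleGraph V} {K : Set (Sym2 V)}
  (ν : G.edgeSet → Measure Bool) [∀ e, IsProbabilityMeasure (ν e)]

theorem lint_hinf (K' : Set (Sym2 V)) (A : Set V) (u : V) :
    ∫⁻ ω, hinf (sz G K' A u ω) ∂(mu ν) = mu ν {ω | sz G K' A u ω = ⊤} := by
  have hm : MeasurableSet {ω | sz G K' A u ω = ⊤} := (meas_sz' A u) (MeasurableSet.singleton _)
  rw [← lintegral_indicator_one hm]
  congr 1
  funext ω
  unfold hinf
  by_cases h : sz G K' A u ω = ⊤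
  · rw [if_pos h, Set.indicator_of_mem (by exact h)]; rfl
  · rw [if_neg h, Set.indicator_of_notMem (by exact h)]

theorem sz_natOrTop (K' : Set (Sym2 V)) (A : Set V) (u : V) (ω : G.edgeSet → Bool) :
    sz G K' A u ω = ⊤ ∨ ∃ n : ℕ, sz G K' A u ω = n := by
  unfold sz
  rcases eq_or_ne (cl G K' ω A u).encard ⊤ with h | h
  · left; rw [h]; rfl
  · right
    obtain ⟨n, hn⟩ := ENat.ne_top_iff_exists.1 h
    exact ⟨n, by rw [← hn]; rfl⟩

theorem lint_trunc (A : Set V) (u : V) (n : ℕ) :
    ∫⁻ ω in {ω | sz G K A u ω < n}, sz G K A u ω ∂(mu ν) ≤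
      ∑ m ∈ Finset.Icc 1 n, mu ν {ω | (m : ℝ≥0∞) ≤ sz G K A u ω} := by
  have hm : ∀ m : ℕ, MeasurableSet {ω | (m : ℝ≥0∞) ≤ sz G K A u ω} := fun m =>
    measurableSet_le measurable_const (meas_sz' _ _)
  calc ∫⁻ ω in {ω | sz G K A u ω < n}, sz G K A u ω ∂(mu ν)
      ≤ ∫⁻ ω in {ω | sz G K A u ω < n}, ∑ m ∈ Finset.Icc 1 n,
          Set.indicator {ω | (m : ℝ≥0∞) ≤ sz G K A u ω} (fun _ => (1 : ℝ≥0∞)) ω ∂(mu ν) := by
        refine setLIntegral_mono' (measurableSet_lt (meas_sz' _ _) measurable_const)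
          fun ω hω => ?_
        rcases sz_natOrTop K A u ω with h | ⟨k, hk⟩
        · rw [mem_ofPred_eq, h] at hω
          exact absurd hω (by simp)
        · rw [mem_ofPred_eq, hk] at hω
          have hkn : k < n := by exact_mod_cast hω
          rw [hk]
          have : ∀ m ∈ Finset.Icc 1 n, Set.indicator {ω | (m : ℝ≥0∞) ≤ sz G K A u ω}
              (fun _ => (1 : ℝ≥0∞)) ω = if m ≤ k then 1 else 0 := by
            intro m _
            rw [Set.indicator_apply]
            simp only [mem_ofPred_eq, hk, Nat.cast_le]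
          rw [Finset.sum_congr rfl this, ← Finset.sum_filter, Finset.sum_const, nsmul_eq_mul,
            mul_one]
          have : (Finset.Icc 1 n).filter (fun m => m ≤ k) = Finset.Icc 1 k := by
            ext m
            simp only [Finset.mem_filter, Finset.mem_Icc]
            omega
          rw [this, Nat.card_Icc]
          simp
    _ ≤ ∫⁻ ω, ∑ m ∈ Finset.Icc 1 n,
          Set.indicator {ω | (m : ℝ≥0∞) ≤ sz G K A u ω} (fun _ => (1 : ℝ≥0∞)) ω ∂(mu ν) :=
        setLIntegral_le_lintegral _ _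
    _ = _ := by
        rw [lintegral_finsetSum _ (fun m _ => measurable_const.indicator (hm m))]
        refine Finset.sum_congr rfl fun m _ => ?_
        exact lintegral_indicator_one (hm m)

/-- The recursive bound for the largest probability `F` that a cluster is infinite. -/
theorem perc_rec (Nb : V → Finset V)
    (hN : ∀ v w, G.Adj v w → s(v, w) ∉ K → w ∈ Nb v)
    {δ : ℝ≥0∞} (hδ : ∀ v, ∑ w ∈ Nb v, mu ν {ω | op G Kᶜ ω v w} ≤ δ)
    (Q : ℕ → ℝ≥0∞) (hQ : ∀ (u : V) (m : ℕ), 1 ≤ m → mu ν {ω | (m : ℝ≥0∞) ≤ sz G K univ u ω} ≤ Q m) :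
    ∃ F : ℝ≥0∞, F ≤ 1 ∧ (∀ A u, mu ν {ω | sz G univ A u ω = ⊤} ≤ F) ∧
      ∀ n : ℕ, 1 ≤ n → F ≤ Q n + (∑ m ∈ Finset.Icc 1 n, Q m) * (δ * F) := by
  refine ⟨⨆ A, ⨆ u, mu ν {ω | sz G univ A u ω = ⊤}, ?_, fun A u => ?_, fun n hn => ?_⟩
  · exact iSup_le fun A => iSup_le fun u => prob_le_one
  · exact le_iSup_of_le A (le_iSup_of_le u le_rfl)
  · set F : ℝ≥0∞ := ⨆ A, ⨆ u, mu ν {ω | sz G univ A u ω = ⊤} with hF
    refine iSup_le fun A => iSup_le fun u => ?_
    by_cases hu : u ∈ A
    · rw [← lint_hinf]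
      have hM : ∀ (A : Set V) (u : V), ∫⁻ ω, hinf (sz G univ A u ω) ∂(mu ν) ≤ F := by
        intro A u
        rw [lint_hinf]
        exact le_iSup_of_le A (le_iSup_of_le u le_rfl)
      refine (explore ν sbd_inf Nb hN hδ hM hu (n : ℝ≥0∞)).trans ?_
      have h1 : ∀ m : ℕ, 1 ≤ m → mu ν {ω | (m : ℝ≥0∞) ≤ sz G K A u ω} ≤ Q m := fun m hm =>
        (measure_mono (fun ω hω => le_trans (show (m : ℝ≥0∞) ≤ sz G K A u ω from hω)
          (sz_mono (subset_univ A) u ω))).trans (hQ u m hm)
      have h2 : hinf ⊤ = 1 := by simp [hinf]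
      rw [h2, one_mul]
      refine add_le_add (h1 n hn) ?_
      calc ∫⁻ ω in {ω | sz G K A u ω < n}, (hinf (sz G K A u ω) + sz G K A u ω * (δ * F))
            ∂(mu ν)
          = ∫⁻ ω in {ω | sz G K A u ω < n}, sz G K A u ω * (δ * F) ∂(mu ν) := by
            refine setLIntegral_congr_fun (measurableSet_lt (meas_sz' _ _) measurable_const)
              fun ω hω => ?_
            have : sz G K A u ω ≠ ⊤ := (lt_of_lt_of_le hω le_top).ne
            simp only [hinf, if_neg this, zero_add]
        _ = (∫⁻ ω in {ω | sz G K A u ω < n}, sz G K A u ω ∂(mu ν)) * (δ * F) :=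
            lintegral_mul_const _ (meas_sz' _ _)
        _ ≤ _ := by
            gcongr
            refine (lint_trunc ν A u n).trans (Finset.sum_le_sum fun m hm => h1 m ?_)
            exact (Finset.mem_Icc.1 hm).1
    · have : {ω | sz G univ A u ω = ⊤} = ∅ := by
        ext ω
        simp only [mem_ofPred_eq, mem_empty_iff_false, iff_false]
        unfold sz
        rw [cl_empty hu]
        simp
      rw [this]
      simp

/-- The bound for the mean size. -/
theorem mean_bound (Nb : V → Finset V)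
    (hN : ∀ v w, G.Adj v w → s(v, w) ∉ K → w ∈ Nb v)
    {δ : ℝ≥0∞} (hδ : ∀ v, ∑ w ∈ Nb v, mu ν {ω | op G Kᶜ ω v w} ≤ δ)
    {σ : ℝ≥0∞} (hσ : ∀ u, ∫⁻ ω, sz G K univ u ω ∂(mu ν) ≤ σ) (hσt : σ ≠ ⊤)
    (hs : 2 * (δ * σ) ≤ 1) (u : V) :
    ∫⁻ ω, sz G univ univ u ω ∂(mu ν) ≤ 2 * σ := by
  have key : ∀ n : ℕ, ∫⁻ ω, min (sz G univ univ u ω) n ∂(mu ν) ≤ 2 * σ := by
    intro n
    set M : ℝ≥0∞ := ⨆ (A : Set V), ⨆ (u : V), ∫⁻ ω, min (sz G univ A u ω) n ∂(mu ν) with hMdef
    have hM : ∀ (A : Set V) (u : V), ∫⁻ ω, (fun x : ℝ≥0∞ => min x (n : ℝ≥0∞)) (sz G univ A u ω)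
        ∂(mu ν) ≤ M := fun A u => le_iSup_of_le A (le_iSup_of_le u le_rfl)
    have hMn : M ≤ n := by
      refine iSup_le fun A => iSup_le fun u => ?_
      calc ∫⁻ ω, min (sz G univ A u ω) n ∂(mu ν) ≤ ∫⁻ ω, (n : ℝ≥0∞) ∂(mu ν) :=
            lintegral_mono fun ω => min_le_right _ _
        _ = n := by simp
    have hMt : M ≠ ⊤ := (lt_of_le_of_lt hMn (ENNReal.natCast_lt_top n)).ne
    have h1 : M ≤ σ + σ * (δ * M) := by
      refine iSup_le fun A => iSup_le fun u => ?_
      by_cases hu : u ∈ A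
      · refine (explore ν (sbd_min n) Nb hN hδ hM hu ⊤).trans ?_
        have hA : ∫⁻ ω, sz G K A u ω ∂(mu ν) ≤ σ :=
          (lintegral_mono fun ω => sz_mono (subset_univ A) u ω).trans (hσ u)
        have h0 : mu ν {ω | ⊤ ≤ sz G K A u ω} = 0 := by
          have h3 := ae_lt_top (meas_sz' A u) (lt_of_le_of_lt hA (lt_top_iff_ne_top.2 hσt)).ne
          rw [ae_iff] at h3
          rw [← h3]
          congr 1
          ext ω
          simp
        rw [h0, mul_zero, zero_add]
        calc ∫⁻ ω in {ω | sz G K A u ω < ⊤}, (min (sz G K A u ω) n +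
              sz G K A u ω * (δ * M)) ∂(mu ν)
            ≤ ∫⁻ ω, (min (sz G K A u ω) n + sz G K A u ω * (δ * M)) ∂(mu ν) :=
              setLIntegral_le_lintegral _ _
          _ ≤ ∫⁻ ω, (sz G K A u ω + sz G K A u ω * (δ * M)) ∂(mu ν) :=
              lintegral_mono fun ω => add_le_add (min_le_left _ _) le_rfl
          _ = ∫⁻ ω, sz G K A u ω ∂(mu ν) + (∫⁻ ω, sz G K A u ω ∂(mu ν)) * (δ * M) := by
              rw [lintegral_add_left (meas_sz' A u), lintegral_mul_const _ (meas_sz' A u)]
          _ ≤ σ + σ * (δ * M) := by gcongr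
      · have : ∀ ω, sz G univ A u ω = 0 := by
          intro ω
          unfold sz
          rw [cl_empty hu]
          simp
        simp [this]
    have h2 : 2 * M ≤ 2 * σ + M := by
      calc 2 * M ≤ 2 * (σ + σ * (δ * M)) := by gcongr
        _ = 2 * σ + (2 * (δ * σ)) * M := by ring
        _ ≤ 2 * σ + 1 * M := by gcongr
        _ = 2 * σ + M := by rw [one_mul]
    have h3 : M ≤ 2 * σ := by
      rw [two_mul M] at h2
      exact (ENNReal.add_le_add_iff_right hMt).1 h2
    exact (hM univ u).trans h3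
  have hlim : ∫⁻ ω, sz G univ univ u ω ∂(mu ν) =
      ⨆ n : ℕ, ∫⁻ ω, min (sz G univ univ u ω) n ∂(mu ν) := by
    rw [← lintegral_iSup (fun n => (meas_sz' _ _).min measurable_const)]
    · congr 1
      funext ω
      apply le_antisymm
      · rcases sz_natOrTop univ univ u ω with h | ⟨k, hk⟩
        · rw [h]
          simp only [le_top, min_eq_right]
          rw [ENNReal.iSup_natCast]
        · rw [hk]
          exact le_iSup_of_le k (by simp)
      · exact iSup_le fun n => min_le_left _ _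
    · intro a b hab ω
      exact min_le_min le_rfl (by exact_mod_cast hab)
  rw [hlim]
  exact iSup_le key

end Pool.Agent.Y976.WP
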