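import Pool.Agent.Y976.WP.Perc

set_option autoImplicit false
set_option linter.unusedSectionVars false
set_option linter.unusedVariables false

/-! Exploration of a cluster by sub-clusters: the basic integral inequality. -/

namespace Pool.Agent.Y976.WP

open MeasureTheory ProbabilityTheory Set
open scoped ENNReal

/-- monotone subadditive functions -/
structure Sbd (h : ℝ≥0∞ → ℝ≥0∞) : Prop where
  mono : Monotone h
  zero : h 0 = 0
  add : ∀ x y, h (x + y) ≤ h x + h y

theorem Sbd.sum {h : ℝ≥0∞ → ℝ≥0∞} (H : Sbd h) {ι : Type} (s : Finset ι) (f : ι → ℝ≥0∞) :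
    h (∑ i ∈ s, f i) ≤ ∑ i ∈ s, h (f i) := by
  classical
  induction s using Finset.induction_on with
  | empty => simp [H.zero]
  | insert a s ha ih =>
    rw [Finset.sum_insert ha, Finset.sum_insert ha]
    exact (H.add _ _).trans (by gcongr)

theorem encard_biUnion {V ι : Type} (s : Finset ι) (T : ι → Set V) :
    (((⋃ i ∈ s, T i).encard : ℕ∞) : ℝ≥0∞) ≤ ∑ i ∈ s, ((T i).encard : ℝ≥0∞) := by
  classical
  induction s using Finset.induction_on with
  | empty => simp
  | insert a s ha ih =>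
    rw [Finset.set_biUnion_insert, Finset.sum_insert ha]
    refine le_trans ?_ (add_le_add_right ih _)
    have := Set.encard_union_le (T a) (⋃ i ∈ s, T i)
    calc (((T a ∪ ⋃ i ∈ s, T i).encard : ℕ∞) : ℝ≥0∞)
        ≤ (((T a).encard + (⋃ i ∈ s, T i).encard : ℕ∞) : ℝ≥0∞) := by exact_mod_cast this
      _ = _ := by push_cast; rfl

variable {V : Type} [Countable V] {G : SimpleGraph V} {K : Set (Sym2 V)}

theorem sz_explore (Nb : V → Finset V) (hN : ∀ v w, G.Adj v w → s(v, w) ∉ K → w ∈ Nb v)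
    {ω : G.edgeSet → Bool} {A : Set V} {u : V} {S : Finset V} (hS : cl G K ω A u = S) :
    sz G univ A u ω ≤ (S.card : ℝ≥0∞) +
      ∑ v ∈ S, ∑ w ∈ Nb v, Set.indicator {ω | op G Kᶜ ω v w} (fun ω => sz G univ (A \ S) w ω) ω := by
  classical
  have h1 := cl_explore hS
  have h2 : cl G univ ω A u ⊆ ↑S ∪ ⋃ v ∈ S, ⋃ w ∈ Nb v,
      (if op G Kᶜ ω v w then cl G univ ω (A \ S) w else ∅) := by
    refine h1.trans (union_subset_union_right _ ?_)
    intro y hy
    simp only [mem_iUnion] at hy ⊢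
    obtain ⟨v, hv, w, hw, hy⟩ := hy
    refine ⟨v, by exact_mod_cast hv, w, hN v w hw.adj hw.2.1, ?_⟩
    rw [if_pos hw]
    exact hy
  have h3 : sz G univ A u ω ≤ (((↑S ∪ ⋃ v ∈ S, ⋃ w ∈ Nb v,
      (if op G Kᶜ ω v w then cl G univ ω (A \ S) w else ∅) : Set V).encard : ℕ∞) : ℝ≥0∞) := by
    unfold sz
    exact_mod_cast Set.encard_le_encard h2
  refine h3.trans ?_
  have h4 := Set.encard_union_le (S : Set V) (⋃ v ∈ S, ⋃ w ∈ Nb v,
      (if op G Kᶜ ω v w then cl G univ ω (A \ S) w else ∅))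
  refine le_trans (by exact_mod_cast h4 : _ ≤ (((S : Set V).encard +
    (⋃ v ∈ S, ⋃ w ∈ Nb v, (if op G Kᶜ ω v w then cl G univ ω (A \ S) w else ∅)).encard : ℕ∞)
      : ℝ≥0∞)) ?_
  rw [Set.encard_coe_eq_coe_finsetCard]
  push_cast
  refine add_le_add_right ?_ _
  refine (encard_biUnion S _).trans (Finset.sum_le_sum fun v _ => ?_)
  refine (encard_biUnion (Nb v) _).trans (Finset.sum_le_sum fun w _ => ?_)
  by_cases hw : op G Kᶜ ω v w
  · rw [if_pos hw, Set.indicator_of_mem (by exact hw)]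
    exact le_rfl
  · rw [if_neg hw]
    simp

variable (ν : G.edgeSet → Measure Bool) [∀ e, IsProbabilityMeasure (ν e)]

theorem lint_piece {h : ℝ≥0∞ → ℝ≥0∞} (H : Sbd h) {M : ℝ≥0∞}
    (hM : ∀ (A : Set V) (u : V), ∫⁻ ω, h (sz G univ A u ω) ∂(mu ν) ≤ M)
    {A : Set V} {u : V} (hu : u ∈ A) (S : Finset V) {v : V} (hv : v ∈ S) (w : V) :
    ∫⁻ ω in {ω | cl G K ω A u = S}, Set.indicator {ω | op G Kᶜ ω v w}
      (fun ω => h (sz G univ (A \ S) w ω)) ω ∂(mu ν) ≤
      mu ν {ω | cl G K ω A u = S} * (mu ν {ω | op G Kᶜ ω v w} * M) := by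
  have hO : MeasurableSet[cs (etc G Kᶜ (S : Set V))] {ω | op G Kᶜ ω v w} :=
    meas_op fun _ hK => ⟨hK, v, by simp, by exact_mod_cast hv⟩
  have hO' : MeasurableSet {ω | op G Kᶜ ω v w} := cs_le _ _ hO
  have hE : MeasurableSet[cs (etc G K (S : Set V))] {ω | cl G K ω A u = S} := meas_cl_eq hu _
  have hd1 : Disjoint (etc G K (S : Set V)) (etc G Kᶜ (S : Set V)) := by
    rw [Set.disjoint_left]
    intro e h1 h2
    exact h2.1 h1.1
  have hd2 : Disjoint (etc G K (S : Set V) ∪ etc G Kᶜ (S : Set V)) (ein G univ (A \ S)) := by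
    rw [Set.disjoint_left]
    rintro e (⟨-, v, hv, hS⟩ | ⟨-, v, hv, hS⟩) h2
    · exact (h2.2 v hv).2 hS
    · exact (h2.2 v hv).2 hS
  have hg : Measurable[cs (ein G univ (A \ S))] (fun ω => h (sz G univ (A \ S) w ω)) :=
    H.mono.measurable.comp (meas_sz _ _)
  rw [lintegral_indicator hO', Measure.restrict_restrict hO', inter_comm]
  rw [lint_inter ν hd2 ((cs_mono subset_union_left _ hE).inter (cs_mono subset_union_right _ hO))
    hg, mu_inter ν hd1 hE hO, mul_assoc]
  gcongr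
  exact hM _ _

theorem lint_event {h : ℝ≥0∞ → ℝ≥0∞} (H : Sbd h) (Nb : V → Finset V)
    (hN : ∀ v w, G.Adj v w → s(v, w) ∉ K → w ∈ Nb v)
    {δ M : ℝ≥0∞} (hδ : ∀ v, ∑ w ∈ Nb v, mu ν {ω | op G Kᶜ ω v w} ≤ δ)
    (hM : ∀ (A : Set V) (u : V), ∫⁻ ω, h (sz G univ A u ω) ∂(mu ν) ≤ M)
    {A : Set V} {u : V} (hu : u ∈ A) (S : Finset V) :
    ∫⁻ ω in {ω | cl G K ω A u = S}, h (sz G univ A u ω) ∂(mu ν) ≤
      mu ν {ω | cl G K ω A u = S} * (h S.card + S.card * (δ * M)) := by
  classical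
  have hE : MeasurableSet {ω | cl G K ω A u = S} := cs_le _ _ (meas_cl_eq hu _)
  have hmg : ∀ v w, Measurable (Set.indicator {ω | op G Kᶜ ω v w}
      (fun ω => h (sz G univ (A \ S) w ω))) := fun v w =>
    (H.mono.measurable.comp (meas_sz' _ _)).indicator
      (cs_le _ _ (meas_op (I := univ) fun _ _ => mem_univ _))
  calc ∫⁻ ω in {ω | cl G K ω A u = S}, h (sz G univ A u ω) ∂(mu ν)
      ≤ ∫⁻ ω in {ω | cl G K ω A u = S}, (h S.card + ∑ v ∈ S, ∑ w ∈ Nb v,
          Set.indicator {ω | op G Kᶜ ω v w} (fun ω => h (sz G univ (A \ S) w ω)) ω) ∂(mu ν) := by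
        refine setLIntegral_mono' hE fun ω hω => ?_
        refine (H.mono (sz_explore Nb hN hω)).trans ((H.add _ _).trans ?_)
        refine add_le_add_right ((H.sum _ _).trans (Finset.sum_le_sum fun v _ =>
          (H.sum _ _).trans (Finset.sum_le_sum fun w _ => ?_))) _
        by_cases hw : op G Kᶜ ω v w
        · rw [Set.indicator_of_mem (by exact hw), Set.indicator_of_mem (by exact hw)]
        · rw [Set.indicator_of_notMem (by exact hw), Set.indicator_of_notMem (by exact hw), H.zero]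
    _ = mu ν {ω | cl G K ω A u = S} * h S.card + ∑ v ∈ S, ∑ w ∈ Nb v,
          ∫⁻ ω in {ω | cl G K ω A u = S}, Set.indicator {ω | op G Kᶜ ω v w}
            (fun ω => h (sz G univ (A \ S) w ω)) ω ∂(mu ν) := by
        rw [lintegral_add_left measurable_const, lintegral_finsetSum]
        · rw [setLIntegral_const, mul_comm]
          congr 1
          refine Finset.sum_congr rfl fun v _ => ?_
          rw [lintegral_finsetSum]
          exact fun w _ => hmg v w
        · exact fun v _ => Finset.measurable_sum _ fun w _ => hmg v w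
    _ ≤ mu ν {ω | cl G K ω A u = S} * h S.card + ∑ v ∈ S, ∑ w ∈ Nb v,
          mu ν {ω | cl G K ω A u = S} * (mu ν {ω | op G Kᶜ ω v w} * M) := by
        gcongr with v hv w hw
        exact lint_piece ν H hM hu S hv w
    _ = mu ν {ω | cl G K ω A u = S} * h S.card + ∑ v ∈ S,
          mu ν {ω | cl G K ω A u = S} * ((∑ w ∈ Nb v, mu ν {ω | op G Kᶜ ω v w}) * M) := by
        congr 1
        refine Finset.sum_congr rfl fun v _ => ?_
        rw [Finset.sum_mul, Finset.mul_sum]
    _ ≤ mu ν {ω | cl G K ω A u = S} * h S.card + ∑ v ∈ S,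
          mu ν {ω | cl G K ω A u = S} * (δ * M) := by
        gcongr with v hv
        exact hδ v
    _ = _ := by
        rw [Finset.sum_const, nsmul_eq_mul]
        ring

/-- The exploration inequality. -/
theorem explore {h : ℝ≥0∞ → ℝ≥0∞} (H : Sbd h) (Nb : V → Finset V)
    (hN : ∀ v w, G.Adj v w → s(v, w) ∉ K → w ∈ Nb v)
    {δ M : ℝ≥0∞} (hδ : ∀ v, ∑ w ∈ Nb v, mu ν {ω | op G Kᶜ ω v w} ≤ δ)
    (hM : ∀ (A : Set V) (u : V), ∫⁻ ω, h (sz G univ A u ω) ∂(mu ν) ≤ M)
    {A : Set V} {u : V} (hu : u ∈ A) (x : ℝ≥0∞) :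
    ∫⁻ ω, h (sz G univ A u ω) ∂(mu ν) ≤ h ⊤ * mu ν {ω | x ≤ sz G K A u ω} +
      ∫⁻ ω in {ω | sz G K A u ω < x}, (h (sz G K A u ω) + sz G K A u ω * (δ * M)) ∂(mu ν) := by
  classical
  have hT : MeasurableSet {ω | x ≤ sz G K A u ω} := measurableSet_le measurable_const (meas_sz' _ _)
  have hTc : {ω | x ≤ sz G K A u ω}ᶜ = {ω | sz G K A u ω < x} := by
    ext ω; simp
  rw [← lintegral_add_compl _ hT, hTc]
  refine add_le_add ?_ ?_
  · calc ∫⁻ ω in {ω | x ≤ sz G K A u ω}, h (sz G univ A u ω) ∂(mu ν)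
        ≤ ∫⁻ ω in {ω | x ≤ sz G K A u ω}, h ⊤ ∂(mu ν) :=
          setLIntegral_mono' hT fun ω _ => H.mono le_top
      _ = _ := by rw [setLIntegral_const]
  · have hU : {ω | sz G K A u ω < x} = ⋃ S : {S : Finset V // (S.card : ℝ≥0∞) < x},
        {ω | cl G K ω A u = S.1} := by
      ext ω
      simp only [mem_ofPred_eq, mem_iUnion]
      constructor
      · intro hω
        have hfin : (cl G K ω A u).Finite := by
          rw [← Set.encard_ne_top_iff]
          intro htop
          unfold sz at hω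
          rw [htop] at hω
          simp at hω
        refine ⟨⟨hfin.toFinset, ?_⟩, by simp⟩
        unfold sz at hω
        rw [hfin.encard_eq_coe_toFinset_card] at hω
        exact_mod_cast hω
      · rintro ⟨⟨S, hS⟩, hω⟩
        unfold sz
        simp only at hω
        rw [hω, Set.encard_coe_eq_coe_finsetCard]
        exact_mod_cast hS
    have hm : ∀ S : {S : Finset V // (S.card : ℝ≥0∞) < x},
        MeasurableSet {ω | cl G K ω A u = S.1} := fun S => cs_le _ _ (meas_cl_eq hu _)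
    have hd : Pairwise (Function.onFun Disjoint
        (fun S : {S : Finset V // (S.card : ℝ≥0∞) < x} =>
          {ω : G.edgeSet → Bool | cl G K ω A u = S.1})) := by
      intro S T hST
      rw [Function.onFun, Set.disjoint_left]
      intro ω h1 h2
      apply hST
      apply Subtype.ext
      have h3 : (S.1 : Set V) = T.1 := by
        rw [← show cl G K ω A u = S.1 from h1, ← show cl G K ω A u = T.1 from h2]
      exact_mod_cast h3
    rw [hU, lintegral_iUnion hm hd, lintegral_iUnion hm hd]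
    refine ENNReal.tsum_le_tsum fun S => ?_
    refine (lint_event ν H Nb hN hδ hM hu S.1).trans (le_of_eq ?_)
    have : ∫⁻ ω in {ω | cl G K ω A u = S.1}, (h (sz G K A u ω) + sz G K A u ω * (δ * M))
        ∂(mu ν) = ∫⁻ ω in {ω | cl G K ω A u = S.1}, (h S.1.card + S.1.card * (δ * M))
        ∂(mu ν) := by
      refine setLIntegral_congr_fun (hm S) fun ω hω => ?_
      have e : sz G K A u ω = S.1.card := by
        unfold sz
        rw [show cl G K ω A u = S.1 from hω, Set.encard_coe_eq_coe_finsetCard]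
        rfl
      simp only [e]
    rw [this, setLIntegral_const, mul_comm]

end Pool.Agent.Y976.WP
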