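import Pool.Agent.H974R2.Model
import Pool.Agent.Y976.WP.Apply

set_option autoImplicit false
set_option linter.unusedSectionVars false
set_option linter.unusedVariables false

/-! The planes inside a stack: the in-plane cluster of a vertex has the law of the cluster of the
origin of bond percolation on the square lattice. -/

namespace Pool.Agent.Y976.WP

open MeasureTheory ProbabilityTheory Set
open scoped ENNReal

/-- The disjoint union of square lattices indexed by `I`. -/
def planes (I : Type) : SimpleGraph ((ℤ × ℤ) × I) where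
  Adj u v := u.2 = v.2 ∧ |u.1.1 - v.1.1| + |u.1.2 - v.1.2| = 1
  symm := ⟨fun u v h => ⟨h.1.symm, by rw [abs_sub_comm v.1.1, abs_sub_comm v.1.2]; exact h.2⟩⟩
  loopless := ⟨fun u h => by simp at h⟩

variable {I : Type} {G : SimpleGraph ((ℤ × ℤ) × I)}

theorem emb_mem (z : ℤ × ℤ) (i : I) {e : Sym2 (ℤ × ℤ)} (he : e ∈ H974.sqLattice.edgeSet) :
    Sym2.map (fun a : ℤ × ℤ => ((a + z, i) : (ℤ × ℤ) × I)) e ∈ (planes I).edgeSet := by
  induction e using Sym2.ind with
  | _ a b =>
    rw [Sym2.map_mk]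
    rw [SimpleGraph.mem_edgeSet] at he ⊢
    refine ⟨rfl, ?_⟩
    have h : |a.1 - b.1| + |a.2 - b.2| = 1 := he
    simpa using h

/-- the edges of the square lattice inside the plane `i`, translated by `z` -/
def emb (hG : planes I ≤ G) (z : ℤ × ℤ) (i : I) (e : H974.sqLattice.edgeSet) : G.edgeSet :=
  ⟨Sym2.map (fun a : ℤ × ℤ => ((a + z, i) : (ℤ × ℤ) × I)) e.1,
    SimpleGraph.edgeSet_mono hG (emb_mem z i e.2)⟩

theorem emb_inj (hG : planes I ≤ G) (z : ℤ × ℤ) (i : I) : Function.Injective (emb hG z i) := by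
  intro e f h
  have h1 : Sym2.map (fun a : ℤ × ℤ => ((a + z, i) : (ℤ × ℤ) × I)) e.1 =
      Sym2.map (fun a : ℤ × ℤ => ((a + z, i) : (ℤ × ℤ) × I)) f.1 := congrArg Subtype.val h
  apply Subtype.ext
  refine Sym2.map.injective ?_ h1
  intro a b hab
  simpa using hab

theorem cl_emb (hG : planes I ≤ G) (z : ℤ × ℤ) (i : I) (ω : G.edgeSet → Bool) :
    cl G (planes I).edgeSet ω univ (z, i) = (fun a : ℤ × ℤ => ((a + z, i) : (ℤ × ℤ) × I)) ''
      H974.cluster0 (fun e => ω (emb hG z i e)) := by
  ext y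
  constructor
  · intro hy
    have : ∀ y, Rch G (planes I).edgeSet ω univ (z, i) y →
        ∃ a, a ∈ H974.cluster0 (fun e => ω (emb hG z i e)) ∧ (a + z, i) = y := by
      intro y hy
      induction hy with
      | refl _ =>
        exact ⟨(0, 0), SimpleGraph.Reachable.refl _, by
          have : ((0, 0) : ℤ × ℤ) + z = z := zero_add z
          rw [this]⟩
      | @tail y w _ _ ho ih =>
        obtain ⟨a, ha, rfl⟩ := ih
        obtain ⟨h1, h2, h3⟩ := ho
        have hadj : (planes I).Adj (a + z, i) w := by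
          rw [SimpleGraph.mem_edgeSet] at h2
          exact h2
        obtain ⟨w, j⟩ := w
        obtain ⟨b, rfl⟩ : ∃ b : ℤ × ℤ, w = b + z := ⟨w - z, by simp⟩
        obtain ⟨h4, h5⟩ := hadj
        simp only at h4
        subst h4
        refine ⟨b, ?_, rfl⟩
        have h6 : H974.sqLattice.Adj a b := by
          show |a.1 - b.1| + |a.2 - b.2| = 1
          simpa using h5
        refine SimpleGraph.Reachable.trans ha (SimpleGraph.Adj.reachable ?_)
        unfold H974.openGraph
        rw [SimpleGraph.fromEdgeSet_adj]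
        exact ⟨⟨by rw [SimpleGraph.mem_edgeSet]; exact h6, h3⟩, h6.ne⟩
    obtain ⟨a, ha, h⟩ := this y hy
    exact ⟨a, ha, h⟩
  · rintro ⟨a, ha, rfl⟩
    have key : ∀ x y : ℤ × ℤ, (H974.openGraph (fun e => ω (emb hG z i e))).Walk x y →
        Rch G (planes I).edgeSet ω univ (x + z, i) (y + z, i) := by
      intro x y w
      induction w with
      | nil => exact Rch.refl (mem_univ _)
      | cons h _ ih =>
        unfold H974.openGraph at h
        rw [SimpleGraph.fromEdgeSet_adj] at h
        obtain ⟨⟨h1, h2⟩, -⟩ := h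
        have h3 := emb_mem (I := I) z i h1
        exact Rch.head (mem_univ _) ⟨SimpleGraph.edgeSet_mono hG h3, h3, h2⟩ ih
    obtain ⟨w⟩ := (show (H974.openGraph (fun e => ω (emb hG z i e))).Reachable (0, 0) a from ha)
    have h4 := key _ _ w
    have h5 : ((0, 0) : ℤ × ℤ) + z = z := zero_add z
    rw [h5] at h4
    exact h4

theorem sz_emb (hG : planes I ≤ G) (z : ℤ × ℤ) (i : I) (ω : G.edgeSet → Bool) :
    sz G (planes I).edgeSet univ (z, i) ω =
      ((H974.cluster0 (fun e => ω (emb hG z i e))).encard : ℝ≥0∞) := by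
  unfold sz
  rw [cl_emb hG z i ω, Function.Injective.encard_image]
  intro a b hab
  simpa using hab

theorem meas_cluster0 : Measurable (fun ω : H974.sqLattice.edgeSet → Bool =>
    ((H974.cluster0 ω).encard : ℝ≥0∞)) := by
  have e : (fun ω : H974.sqLattice.edgeSet → Bool => ((H974.cluster0 ω).encard : ℝ≥0∞)) =
      sz H974.sqLattice univ univ (0, 0) := by
    funext ω
    unfold sz
    congr 2
    ext y
    exact rch_iff_reachable
  rw [e]
  exact meas_sz' _ _

open Classical in
/-- the law of an edge -/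
noncomputable def edgeLaw (G : SimpleGraph ((ℤ × ℤ) × I)) (r : Sym2 ((ℤ × ℤ) × I) → unitInterval)
    (p : unitInterval) (e : G.edgeSet) : Measure Bool :=
  bernoulliMeasure true false (if e.1 ∈ (planes I).edgeSet then p else r e.1)

instance (r : Sym2 ((ℤ × ℤ) × I) → unitInterval) (p : unitInterval) (e : G.edgeSet) :
    IsProbabilityMeasure (edgeLaw G r p e) := by
  unfold edgeLaw; infer_instance

theorem map_emb (hG : planes I ≤ G) (r : Sym2 ((ℤ × ℤ) × I) → unitInterval) (p : unitInterval)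
    (z : ℤ × ℤ) (i : I) :
    (mu (edgeLaw G r p)).map (fun ω e => ω (emb hG z i e)) = H974.bondLaw p := by
  rw [map_comp_inj (edgeLaw G r p) (emb hG z i) (emb_inj hG z i)]
  unfold mu H974.bondLaw
  congr 1
  funext e
  unfold edgeLaw
  rw [if_pos]
  exact emb_mem z i e.2

theorem meas_comp_emb (hG : planes I ≤ G) (z : ℤ × ℤ) (i : I) :
    Measurable (fun (ω : G.edgeSet → Bool) (e : H974.sqLattice.edgeSet) => ω (emb hG z i e)) :=
  measurable_pi_lambda _ fun e => measurable_pi_apply _

theorem plane_tail (hG : planes I ≤ G) (r : Sym2 ((ℤ × ℤ) × I) → unitInterval) (p : unitInterval)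
    (v : (ℤ × ℤ) × I) (x : ℝ≥0∞) :
    mu (edgeLaw G r p) {ω | x ≤ sz G (planes I).edgeSet univ v ω} =
      H974.bondLaw p {ω | x ≤ ((H974.cluster0 ω).encard : ℝ≥0∞)} := by
  rw [← map_emb hG r p v.1 v.2, Measure.map_apply (meas_comp_emb hG v.1 v.2)
    (measurableSet_le measurable_const meas_cluster0)]
  congr 1
  ext ω
  simp only [mem_ofPred_eq, mem_preimage]
  rw [← sz_emb hG v.1 v.2 ω]

theorem bern_true (q : unitInterval) : bernoulliMeasure true false q {true} =
    ENNReal.ofReal q := by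
  rw [← ENNReal.ofReal_toReal (measure_ne_top (bernoulliMeasure true false q) {true}),
    ← measureReal_def]
  congr 1
  have h1 : true ∈ ({true} : Set Bool) := by simp
  have h2 : false ∉ ({true} : Set Bool) := by simp
  exact bernoulliMeasure_real_apply_of_mem_of_notMem q (MeasurableSet.singleton _) h1 h2

/-- the probability that a cross edge is open -/
theorem mu_cross (r : Sym2 ((ℤ × ℤ) × I) → unitInterval) (p : unitInterval) {v w : (ℤ × ℤ) × I} :
    mu (edgeLaw G r p) {ω | op G (planes I).edgeSetᶜ ω v w} ≤ ENNReal.ofReal (r s(v, w)) := by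
  by_cases h : s(v, w) ∈ G.edgeSet ∧ s(v, w) ∈ (planes I).edgeSetᶜ
  · have : {ω | op G (planes I).edgeSetᶜ ω v w} = {ω | ω ⟨s(v, w), h.1⟩ = true} := by
      ext ω; simp only [mem_ofPred_eq, op]
      exact ⟨fun ⟨_, _, h2⟩ => h2, fun h2 => ⟨h.1, h.2, h2⟩⟩
    rw [this, mu_coord]
    unfold edgeLaw
    rw [if_neg h.2, bern_true]
  · have : {ω | op G (planes I).edgeSetᶜ ω v w} = ∅ := by
      ext ω; simp only [mem_ofPred_eq, op, mem_empty_iff_false, iff_false]
      rintro ⟨h1, h2, _⟩; exact h ⟨h1, h2⟩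
    rw [this]
    simp

theorem plane_mean (hG : planes I ≤ G) (r : Sym2 ((ℤ × ℤ) × I) → unitInterval) (p : unitInterval)
    (v : (ℤ × ℤ) × I) :
    ∫⁻ ω, sz G (planes I).edgeSet univ v ω ∂(mu (edgeLaw G r p)) =
      ∫⁻ ω, ((H974.cluster0 ω).encard : ℝ≥0∞) ∂(H974.bondLaw p) := by
  rw [← map_emb hG r p v.1 v.2, lintegral_map meas_cluster0 (meas_comp_emb hG v.1 v.2)]
  congr 1
  funext ω
  exact sz_emb hG v.1 v.2 ω

end Pool.Agent.Y976.WP
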