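import Mathlib

set_option autoImplicit false

/-! Solution of the recursive inequality. -/

namespace Pool.Agent.Y976.WP

open Finset

theorem sum_Icc_rpow {a : ℝ} (ha1 : a < 1)
    (H : ∀ D : ℕ, ∑ d ∈ Finset.range D, ((d : ℝ) + 1) ^ (-a) ≤ (D : ℝ) ^ (1 - a) / (1 - a))
    (n : ℕ) : ∑ m ∈ Finset.Icc 1 n, (m : ℝ) ^ (-a) ≤ (n : ℝ) ^ (1 - a) / (1 - a) := by
  refine le_trans (le_of_eq ?_) (H n)
  have : Finset.Icc 1 n = (Finset.range n).image (fun d => d + 1) := by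
    ext m
    simp only [Finset.mem_Icc, Finset.mem_image, Finset.mem_range]
    constructor
    · rintro ⟨h1, h2⟩
      exact ⟨m - 1, by omega, by omega⟩
    · rintro ⟨d, hd, rfl⟩
      omega
  rw [this, Finset.sum_image (fun a _ b _ h => by simpa using h)]
  push_cast
  rfl

theorem rec_step {C b x F : ℝ} (hC : 1 ≤ C) (hb : 0 ≤ b) (hx : 0 ≤ x) (hF1 : F ≤ 1)
    (H : ∀ n : ℕ, ∑ m ∈ Finset.Icc 1 n, (m : ℝ) ^ (-(5/91) : ℝ) ≤ (n : ℝ) ^ (86/91 : ℝ) / (86/91))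
    (h : ∀ n : ℕ, 1 ≤ n → F ≤ C * ((n:ℝ)^(-(5/91) : ℝ) + b) +
      (∑ m ∈ Finset.Icc 1 n, C * ((m:ℝ)^(-(5/91) : ℝ) + b)) * x) :
    F ≤ 4 * C * (x^(5/91 : ℝ) + b) := by
  have hC0 : 0 < C := by linarith
  rcases le_or_gt 1 x with hx1 | hx1
  · have h1 : 1 ≤ x^(5/91 : ℝ) := Real.one_le_rpow hx1 (by norm_num)
    nlinarith
  · rcases eq_or_lt_of_le hx with h0 | h0
    · subst h0
      rw [Real.zero_rpow (by norm_num), zero_add]
      have h1 : ∀ n : ℕ, 1 ≤ n → F ≤ C * ((n:ℝ)^(-(5/91) : ℝ) + b) := by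
        intro n hn
        have := h n hn
        simpa using this
      have h2 : Filter.Tendsto (fun n : ℕ => C * ((n:ℝ)^(-(5/91) : ℝ) + b)) Filter.atTop
          (nhds (C * (0 + b))) := by
        have h3 := (tendsto_rpow_neg_atTop (y := 5/91) (by norm_num)).comp
          (tendsto_natCast_atTop_atTop (R := ℝ))
        exact (h3.add_const b).const_mul C
      have h4 := ge_of_tendsto h2 (Filter.eventually_atTop.2 ⟨1, h1⟩)
      nlinarith
    · obtain ⟨n, hn⟩ : ∃ n : ℕ, n = ⌈1/x⌉₊ := ⟨_, rfl⟩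
      have h1x : 1 ≤ 1 / x := by rw [le_div_iff₀ h0]; linarith
      have hxn : 1 / x ≤ n := by rw [hn]; exact Nat.le_ceil _
      have hn2 : (n:ℝ) ≤ 2 * (1 / x) := by
        have := Nat.ceil_lt_add_one (a := 1/x) (by linarith)
        rw [hn]; linarith
      have hn1 : 1 ≤ n := by
        have : (1:ℝ) ≤ n := h1x.trans hxn
        exact_mod_cast this
      have hn0 : (0:ℝ) < n := by exact_mod_cast hn1
      have hxa : 0 < x^(5/91 : ℝ) := Real.rpow_pos_of_pos h0 _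
      have hna : (n:ℝ)^(-(5/91) : ℝ) ≤ x^(5/91 : ℝ) := by
        calc (n:ℝ)^(-(5/91) : ℝ) ≤ (1/x)^(-(5/91) : ℝ) :=
              Real.rpow_le_rpow_of_nonpos (by positivity) hxn (by norm_num)
          _ = x^(5/91 : ℝ) := by
              rw [one_div, Real.inv_rpow hx, Real.rpow_neg hx, inv_inv]
      have hxn2 : x * n ≤ 2 := by
        calc x * n ≤ x * (2 * (1/x)) := mul_le_mul_of_nonneg_left hn2 hx
          _ = 2 := by field_simp
      have hS : x * ∑ m ∈ Finset.Icc 1 n, (m:ℝ)^(-(5/91) : ℝ) ≤ 91/43 * x^(5/91 : ℝ) := by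
        calc x * ∑ m ∈ Finset.Icc 1 n, (m:ℝ)^(-(5/91) : ℝ)
            ≤ x * ((n : ℝ) ^ (86/91 : ℝ) / (86/91)) := mul_le_mul_of_nonneg_left (H n) hx
          _ = (x * n) * (n:ℝ)^(-(5/91) : ℝ) * (91/86) := by
              have : (n : ℝ) ^ (86/91 : ℝ) = n * (n:ℝ)^(-(5/91) : ℝ) := by
                nth_rewrite 2 [← Real.rpow_one (n:ℝ)]
                rw [← Real.rpow_add hn0]
                norm_num
              rw [this]
              ring
          _ ≤ 2 * x^(5/91 : ℝ) * (91/86) := by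
              have h3 : 0 ≤ (n:ℝ)^(-(5/91) : ℝ) := by positivity
              have : (x * n) * (n:ℝ)^(-(5/91) : ℝ) ≤ 2 * x^(5/91 : ℝ) :=
                mul_le_mul hxn2 hna h3 (by norm_num)
              linarith
          _ = _ := by ring
      have hmain := h n hn1
      have e : (∑ m ∈ Finset.Icc 1 n, C * ((m:ℝ)^(-(5/91) : ℝ) + b)) * x =
          C * (x * ∑ m ∈ Finset.Icc 1 n, (m:ℝ)^(-(5/91) : ℝ)) + C * ((x * n) * b) := by
        rw [← Finset.mul_sum, Finset.sum_add_distrib, Finset.sum_const, Nat.card_Icc,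
          nsmul_eq_mul]
        simp only [Nat.add_sub_cancel]
        ring
      rw [e] at hmain
      have h5 : (x * n) * b ≤ 2 * b := mul_le_mul_of_nonneg_right hxn2 hb
      have h6 : C * (x * ∑ m ∈ Finset.Icc 1 n, (m:ℝ)^(-(5/91) : ℝ)) ≤
          C * (91/43 * x^(5/91 : ℝ)) := mul_le_mul_of_nonneg_left hS hC0.le
      have h7 : C * ((x * n) * b) ≤ C * (2 * b) := mul_le_mul_of_nonneg_left h5 hC0.le
      have h8 : C * ((n:ℝ)^(-(5/91) : ℝ) + b) ≤ C * (x^(5/91 : ℝ) + b) :=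
        mul_le_mul_of_nonneg_left (by linarith) hC0.le
      have h9 : 0 ≤ C * x^(5/91 : ℝ) := by positivity
      have h10 : 0 ≤ C * b := by positivity
      nlinarith

/-- The solution of the recursive inequality. -/
theorem solve_rec {C b κ F : ℝ} (hC : 1 ≤ C) (hb : 0 ≤ b) (hκ : 0 ≤ κ) (hF0 : 0 ≤ F)
    (hF1 : F ≤ 1)
    (H : ∀ n : ℕ, ∑ m ∈ Finset.Icc 1 n, (m : ℝ) ^ (-(5/91) : ℝ) ≤ (n : ℝ) ^ (86/91 : ℝ) / (86/91))
    (h : ∀ n : ℕ, 1 ≤ n → F ≤ C * ((n:ℝ)^(-(5/91) : ℝ) + b) +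
      (∑ m ∈ Finset.Icc 1 n, C * ((m:ℝ)^(-(5/91) : ℝ) + b)) * (κ * F)) :
    F ≤ 8 * C * b + (8 * C)^2 * κ^(5/86 : ℝ) := by
  have h1 := rec_step hC hb (mul_nonneg hκ hF0) hF1 H h
  have hC0 : 0 < C := by linarith
  have hk : 0 ≤ κ^(5/86 : ℝ) := Real.rpow_nonneg hκ _
  rcases le_or_gt ((κ * F)^(5/91 : ℝ)) b with hb1 | hb1
  · have : 4 * C * ((κ * F)^(5/91 : ℝ) + b) ≤ 4 * C * (b + b) :=
      mul_le_mul_of_nonneg_left (by linarith) (by positivity)
    have h2 : 0 ≤ (8 * C)^2 * κ^(5/86 : ℝ) := by positivity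
    linarith
  · have h2 : F ≤ 8 * C * (κ * F)^(5/91 : ℝ) := by
      have : 4 * C * ((κ * F)^(5/91 : ℝ) + b) ≤
          4 * C * ((κ * F)^(5/91 : ℝ) + (κ * F)^(5/91 : ℝ)) :=
        mul_le_mul_of_nonneg_left (by linarith) (by positivity)
      linarith
    have hb8 : 0 ≤ 8 * C * b := by positivity
    rcases eq_or_lt_of_le hF0 with hF | hF
    · rw [← hF]
      have h2 : 0 ≤ (8 * C)^2 * κ^(5/86 : ℝ) := by positivity
      linarith
    · rw [Real.mul_rpow hκ hF0] at h2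
      have h3 : F^(86/91 : ℝ) ≤ 8 * C * κ^(5/91 : ℝ) := by
        have e : F = F^(86/91 : ℝ) * F^(5/91 : ℝ) := by
          rw [← Real.rpow_add hF]; norm_num
        have hp : 0 < F^(5/91 : ℝ) := Real.rpow_pos_of_pos hF _
        have h4 : F^(86/91 : ℝ) * F^(5/91 : ℝ) ≤ (8 * C * κ^(5/91 : ℝ)) * F^(5/91 : ℝ) := by
          rw [← e]
          linarith
        exact le_of_mul_le_mul_right h4 hp
      have h4 : F ≤ (8 * C)^(91/86 : ℝ) * κ^(5/86 : ℝ) := by
        calc F = (F^(86/91 : ℝ))^(91/86 : ℝ) := by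
              rw [← Real.rpow_mul hF0]; norm_num
          _ ≤ (8 * C * κ^(5/91 : ℝ))^(91/86 : ℝ) :=
              Real.rpow_le_rpow (by positivity) h3 (by norm_num)
          _ = (8 * C)^(91/86 : ℝ) * κ^(5/86 : ℝ) := by
              rw [Real.mul_rpow (by positivity) (by positivity), ← Real.rpow_mul hκ]
              norm_num
      have h5 : (8 * C)^(91/86 : ℝ) ≤ (8 * C)^2 := by
        rw [← Real.rpow_natCast (8 * C) 2]
        exact Real.rpow_le_rpow_of_exponent_le (by linarith) (by norm_num)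
      calc F ≤ (8 * C)^(91/86 : ℝ) * κ^(5/86 : ℝ) := h4
        _ ≤ (8 * C)^2 * κ^(5/86 : ℝ) := mul_le_mul_of_nonneg_right h5 hk
        _ ≤ _ := by linarith

end Pool.Agent.Y976.WP
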