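import Pool.Agent.Y554.NC.SubC
import Pool.Agent.Y554.NC.Theta
import Pool.Agent.W424.NC.TwoUp
import Pool.Agent.Y976.WP.Num

set_option autoImplicit false
set_option linter.deprecated false

/-! The tail of the size of the cluster of the origin, for every parameter. -/

namespace Pool.Agent.Y976.WP.Planar

open H974 H31K Finset MeasureTheory
open Pool.Agent.H160R2.CV
open Pool.Agent.W424.NC Pool.Agent.Y554.NC

/-- The two-point function in the near-critical window. -/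
theorem tau_win : ∃ C β : ℝ, 1 ≤ C ∧ 0 < β ∧ ∀ p : unitInterval, ∀ n : ℕ, 1 ≤ n →
    |(p:ℝ) - 1/2| ≤ β * (n:ℝ)^(-(3/4 : ℝ)) → arm p n ≤ C * (n:ℝ)^(-(5/48) : ℝ) ∧
    ∀ x : Vtx, nrm x ≤ n → tau p x ≤ C * ((nrm x : ℝ) + 1)^(-(5/24) : ℝ) := by
  obtain ⟨cc, C0, hcc, hC0, h⟩ := Pool.Agent.W424.NC.arm_crit
  obtain ⟨κ, β, hκ, hβ, hst⟩ := armS
  refine ⟨72 * C0^2 + 3 * C0 + 3, β, by nlinarith [sq_nonneg C0], hβ, ?_⟩
  intro p n hn hpn
  have hn0 : (0:ℝ) < n := by exact_mod_cast hn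
  have harm : ∀ m : ℕ, 1 ≤ m → m ≤ n → arm p m ≤ 3 * C0 * (m:ℝ)^(-(5/48) : ℝ) := by
    intro m hm hmn
    have hm0 : (0:ℝ) < m := by exact_mod_cast hm
    have h1 : |(p:ℝ) - 1/2| ≤ β * (m:ℝ)^(-(3/4 : ℝ)) := by
      refine hpn.trans (mul_le_mul_of_nonneg_left ?_ hβ.le)
      exact Real.rpow_le_rpow_of_nonpos hm0 (by exact_mod_cast hmn) (by norm_num)
    have h2 := (hst m hm p h1).2.1
    have h3 := (h m hm).2
    linarith
  refine ⟨?_, ?_⟩
  · refine (harm n hn le_rfl).trans ?_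
    have : 0 ≤ (n:ℝ)^(-(5/48) : ℝ) := by positivity
    nlinarith [mul_nonneg (sq_nonneg C0) this]
  intro x hxn
  obtain ⟨r, hr⟩ : ∃ r : ℕ, r = nrm x := ⟨_, rfl⟩
  rw [← hr] at hxn ⊢
  have hp0 : (0:ℝ) ≤ p := p.2.1
  have hp1 : (p:ℝ) ≤ 1 := p.2.2
  have hr0 : (0:ℝ) < (r:ℝ) + 1 := by positivity
  by_cases h3 : r ≤ 2
  · have h4 : (1:ℝ)/3 ≤ ((r:ℝ) + 1)^(-(5/24) : ℝ) := by
      have h5 : (r:ℝ) + 1 ≤ 3 := by
        have : (r:ℝ) ≤ 2 := by exact_mod_cast h3
        linarith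
      calc (1:ℝ)/3 = (3:ℝ)^(-1:ℝ) := by rw [Real.rpow_neg_one]; norm_num
        _ ≤ (3:ℝ)^(-(5/24) : ℝ) :=
            Real.rpow_le_rpow_of_exponent_le (by norm_num) (by norm_num)
        _ ≤ ((r:ℝ) + 1)^(-(5/24) : ℝ) :=
            Real.rpow_le_rpow_of_nonpos hr0 h5 (by norm_num)
    have h6 := tau_le_one p x
    have h7 : 0 ≤ (72 * C0^2 + 3 * C0) * ((r:ℝ) + 1)^(-(5/24) : ℝ) := by positivity
    nlinarith
  · have h8 : 1 ≤ (r-1)/2 := by omega
    have h9 : r + 1 ≤ 8 * ((r-1)/2) := by omega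
    have hxc := nrm_cases x
    rw [← hr] at hxc
    have h10 : 2 * (((r-1)/2 : ℕ):ℤ) < |x.1| ∨ 2 * (((r-1)/2 : ℕ):ℤ) < |x.2| := by
      rcases hxc with h | h
      · left; omega
      · right; omega
    have h11 := tau_le_arm_sq p h10
    obtain ⟨m, hm⟩ : ∃ m : ℕ, m = (r-1)/2 := ⟨_, rfl⟩
    rw [← hm] at h8 h9 h11
    have hmn : m ≤ n := by omega
    have hm0 : (0:ℝ) < m := by exact_mod_cast (by omega : 0 < m)
    have h12 : arm p m ≤ 3 * C0 * (m:ℝ)^(-(5/48) : ℝ) := harm m h8 hmn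
    have h13 : (arm p m)^2 ≤ (3 * C0 * (m:ℝ)^(-(5/48) : ℝ))^2 :=
      pow_le_pow_left₀ (arm_nonneg hp0 hp1 m) h12 2
    have h14 : (3 * C0 * (m:ℝ)^(-(5/48) : ℝ))^2 = 9 * C0^2 * (m:ℝ)^(-(5/24) : ℝ) := by
      have e0 : ((m:ℝ)^(-(5/48) : ℝ))^2 = (m:ℝ)^(-(5/24) : ℝ) := by
        rw [← Real.rpow_natCast ((m:ℝ)^(-(5/48) : ℝ)), ← Real.rpow_mul hm0.le]
        norm_num
      rw [mul_pow, mul_pow, e0]
      ring
    have h15 : (m:ℝ)^(-(5/24) : ℝ) ≤ (((r:ℝ)+1)/8)^(-(5/24) : ℝ) := by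
      apply Real.rpow_le_rpow_of_nonpos (by positivity) _ (by norm_num)
      have : ((r + 1 : ℕ):ℝ) ≤ ((8 * m : ℕ) : ℝ) := by exact_mod_cast h9
      push_cast at this
      linarith
    have h16 : (((r:ℝ)+1)/8)^(-(5/24) : ℝ) ≤ 8 * ((r:ℝ)+1)^(-(5/24) : ℝ) := by
      rw [Real.div_rpow hr0.le (by norm_num)]
      rw [div_eq_mul_inv, mul_comm]
      apply mul_le_mul_of_nonneg_right _ (by positivity)
      rw [← Real.rpow_neg (by norm_num), neg_neg]
      calc (8:ℝ)^(5/24 : ℝ) ≤ (8:ℝ)^(1:ℝ) :=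
            Real.rpow_le_rpow_of_exponent_le (by norm_num) (by norm_num)
        _ = 8 := Real.rpow_one _
    have h17 : 0 ≤ ((r:ℝ)+1)^(-(5/24) : ℝ) := by positivity
    calc tau p x ≤ (arm p m)^2 := h11
      _ ≤ 9 * C0^2 * (m:ℝ)^(-(5/24) : ℝ) := h13.trans h14.le
      _ ≤ 9 * C0^2 * (8 * ((r:ℝ)+1)^(-(5/24) : ℝ)) :=
          mul_le_mul_of_nonneg_left (h15.trans h16) (by positivity)
      _ = 72 * C0^2 * ((r:ℝ)+1)^(-(5/24) : ℝ) := by ring
      _ ≤ _ := by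
          apply mul_le_mul_of_nonneg_right _ h17
          linarith

/-- first moment of the number of points of the cluster in a box -/
theorem cnt_win {C : ℝ} (hC : 1 ≤ C) {p : unitInterval} {n : ℕ} (hn : 1 ≤ n)
    (h : ∀ x : Vtx, nrm x ≤ n → tau p x ≤ C * ((nrm x : ℝ) + 1)^(-(5/24) : ℝ)) :
    ∫⁻ ω, cnt (bx n) ω ∂(bondLaw p) ≤ ENNReal.ofReal (16 * C * (n:ℝ)^(43/24 : ℝ)) := by
  classical
  have e : ∫⁻ ω, cnt (bx n) ω ∂(bondLaw p) = ∑ x ∈ bx n, bondLaw p {ω | x ∈ cluster0 ω} := by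
    unfold cnt
    rw [lintegral_finsetSum _ (fun x _ => measurable_const.indicator (t10_meas x))]
    refine Finset.sum_congr rfl fun x _ => ?_
    exact lintegral_indicator_one (t10_meas x)
  rw [e]
  have h2 : ∀ x ∈ bx n, bondLaw p {ω | x ∈ cluster0 ω} ≤
      ENNReal.ofReal (C * ((nv x : ℝ) + 1)^(-(5/24) : ℝ)) := by
    intro x hx
    have hxn : nv x ≤ n := by
      have := mem_bx'.1 hx
      exact this
    have h3 := h x hxn
    have h4 : bondLaw p {ω | x ∈ cluster0 ω} = ENNReal.ofReal (tau p x) := by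
      unfold tau
      rw [measureReal_def, ENNReal.ofReal_toReal (measure_ne_top _ _)]
    rw [h4]
    exact ENNReal.ofReal_le_ofReal h3
  refine (Finset.sum_le_sum h2).trans ?_
  rw [← ENNReal.ofReal_sum_of_nonneg (fun x _ => by positivity)]
  apply ENNReal.ofReal_le_ofReal
  rw [← Finset.mul_sum]
  have h5 := sum_bx (a := 5/24) (by norm_num) (by norm_num) hn
  have e2 : (2 - 5/24 : ℝ) = 43/24 := by norm_num
  rw [e2] at h5
  have h6 : 0 ≤ (n:ℝ)^(43/24 : ℝ) := by positivity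
  calc C * ∑ i ∈ bx n, ((nv i : ℝ) + 1)^(-(5/24) : ℝ)
      ≤ C * (12 / (1 - 5/24) * (n:ℝ)^(43/24 : ℝ)) := mul_le_mul_of_nonneg_left h5 (by linarith)
    _ ≤ C * (16 * (n:ℝ)^(43/24 : ℝ)) := by
        apply mul_le_mul_of_nonneg_left _ (by linarith)
        apply mul_le_mul_of_nonneg_right _ h6
        norm_num
    _ = _ := by ring

/-- The tail of the cluster size for every parameter. -/
theorem big_all : ∃ C : ℝ, 1 ≤ C ∧ ∀ p : unitInterval, ∀ m : ℕ, 1 ≤ m →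
    bondLaw p (Big (m : ENNReal)) ≤
      ENNReal.ofReal (C * ((m:ℝ)^(-(5/91) : ℝ) + (max 0 ((p:ℝ) - 1/2))^(5/36 : ℝ))) := by
  obtain ⟨C1, hC1, h1⟩ := big_upper
  obtain ⟨C2, β, hC2, hβ, h2⟩ := tau_win
  have hB : 0 < β^(-(5/36) : ℝ) := Real.rpow_pos_of_pos hβ _
  refine ⟨C1 + 66 * C2 + 2 * C2 * β^(-(5/36) : ℝ) + β^(-(5/36) : ℝ), ?_, fun p m hm => ?_⟩
  · have : 0 < 2 * C2 * β^(-(5/36) : ℝ) := by positivity
    linarith
  have hmr : (1:ℝ) ≤ m := by exact_mod_cast hm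
  have hm0 : (0:ℝ) < m := by linarith
  have hmp : 0 < (m:ℝ)^(-(5/91) : ℝ) := Real.rpow_pos_of_pos hm0 _
  rcases le_or_gt (p:ℝ) (1/2) with hp | hp
  · refine (h1 p hp m hm).trans (ENNReal.ofReal_le_ofReal ?_)
    rw [max_eq_left (by linarith), Real.zero_rpow (by norm_num), add_zero]
    apply mul_le_mul_of_nonneg_right _ hmp.le
    have : 0 < 2 * C2 * β^(-(5/36) : ℝ) := by positivity
    linarith
  · obtain ⟨s, hs⟩ : ∃ s : ℝ, s = (p:ℝ) - 1/2 := ⟨_, rfl⟩
    have hs0 : 0 < s := by rw [hs]; linarith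
    rw [← hs, max_eq_right hs0.le]
    have hse : 0 < s^(5/36 : ℝ) := Real.rpow_pos_of_pos hs0 _
    rcases lt_or_ge β s with hbs | hbs
    · have h3 : β^(5/36 : ℝ) ≤ s^(5/36 : ℝ) := Real.rpow_le_rpow hβ.le hbs.le (by norm_num)
      have h4 : 1 ≤ β^(-(5/36) : ℝ) * s^(5/36 : ℝ) := by
        rw [Real.rpow_neg hβ.le, ← div_eq_inv_mul, le_div_iff₀ (Real.rpow_pos_of_pos hβ _),
          one_mul]
        exact h3
      calc bondLaw p (Big (m : ENNReal)) ≤ 1 := prob_le_one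
        _ = ENNReal.ofReal 1 := by simp
        _ ≤ _ := by
            apply ENNReal.ofReal_le_ofReal
            refine h4.trans ?_
            calc β^(-(5/36) : ℝ) * s^(5/36 : ℝ)
                ≤ (C1 + 66 * C2 + 2 * C2 * β^(-(5/36) : ℝ) + β^(-(5/36) : ℝ)) * s^(5/36 : ℝ) := by
                  apply mul_le_mul_of_nonneg_right _ hse.le
                  have : 0 < 2 * C2 * β^(-(5/36) : ℝ) := by positivity
                  linarith
              _ ≤ _ := by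
                  apply mul_le_mul_of_nonneg_left (by linarith)
                  have : 0 < 2 * C2 * β^(-(5/36) : ℝ) := by positivity
                  linarith
    · obtain ⟨n0, hn01, hwin, hnx, hxn⟩ := scale_exists hβ hs0 hbs
      have hn00 : (0:ℝ) < n0 := by exact_mod_cast hn01
      obtain ⟨y, hy⟩ : ∃ y : ℝ, y = (m:ℝ)^(48/91 : ℝ) := ⟨_, rfl⟩
      have hy1 : 1 ≤ y := by rw [hy]; exact Real.one_le_rpow hmr (by norm_num)
      obtain ⟨n, hn⟩ : ∃ n : ℕ, n = min ⌈y⌉₊ n0 := ⟨_, rfl⟩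
      have hn2 : (n:ℝ) ≤ 2 * y := by
        have h5 := Nat.ceil_lt_add_one (a := y) (by linarith)
        have h6 : (n:ℝ) ≤ (⌈y⌉₊ : ℝ) := by
          rw [hn]; exact_mod_cast min_le_left _ _
        linarith
      have hn1 : 1 ≤ n := by
        rw [hn]
        refine le_min ?_ hn01
        have : (1:ℝ) ≤ (⌈y⌉₊ : ℝ) := hy1.trans (Nat.le_ceil y)
        exact_mod_cast this
      have hn0 : (0:ℝ) < n := by exact_mod_cast hn1
      have hnn0 : (n:ℝ) ≤ n0 := by rw [hn]; exact_mod_cast min_le_right _ _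
      have hwin' : |(p:ℝ) - 1/2| ≤ β * (n:ℝ)^(-(3/4 : ℝ)) := by
        rw [← hs, abs_of_pos hs0]
        refine hwin.trans (mul_le_mul_of_nonneg_left ?_ hβ.le)
        exact Real.rpow_le_rpow_of_nonpos hn0 hnn0 (by norm_num)
      obtain ⟨h5, h6⟩ := h2 p n hn1 hwin'
      have hn0s : (n0:ℝ)^(-(5/48) : ℝ) ≤ 2 * (β^(-(5/36) : ℝ) * s^(5/36 : ℝ)) := by
        have hx0 : 0 < (β/s)^(4/3 : ℝ) := by positivity
        calc (n0:ℝ)^(-(5/48) : ℝ) ≤ ((β/s)^(4/3 : ℝ)/2)^(-(5/48) : ℝ) :=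
              Real.rpow_le_rpow_of_nonpos (by positivity) (by linarith) (by norm_num)
          _ = (2:ℝ)^(5/48 : ℝ) * ((β/s)^(4/3 : ℝ))^(-(5/48) : ℝ) := by
              rw [Real.div_rpow hx0.le (by norm_num), Real.rpow_neg (by norm_num : (0:ℝ) ≤ 2),
                div_inv_eq_mul, mul_comm]
          _ = (2:ℝ)^(5/48 : ℝ) * (β/s)^(-(5/36) : ℝ) := by
              rw [← Real.rpow_mul (by positivity)]
              norm_num
          _ = (2:ℝ)^(5/48 : ℝ) * (β^(-(5/36) : ℝ) * s^(5/36 : ℝ)) := by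
              rw [Real.div_rpow hβ.le hs0.le, Real.rpow_neg hs0.le, div_inv_eq_mul]
          _ ≤ 2 * (β^(-(5/36) : ℝ) * s^(5/36 : ℝ)) := by
              apply mul_le_mul_of_nonneg_right _ (by positivity)
              calc (2:ℝ)^(5/48 : ℝ) ≤ (2:ℝ)^(1:ℝ) :=
                    Real.rpow_le_rpow_of_exponent_le (by norm_num) (by norm_num)
                _ = 2 := Real.rpow_one 2
      have harm : arm p n ≤ C2 * ((m:ℝ)^(-(5/91) : ℝ) +
          2 * (β^(-(5/36) : ℝ) * s^(5/36 : ℝ))) := by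
        refine h5.trans (mul_le_mul_of_nonneg_left ?_ (by linarith))
        rcases min_choice ⌈y⌉₊ n0 with hc | hc
        · have h8 : (n:ℝ)^(-(5/48) : ℝ) ≤ (m:ℝ)^(-(5/91) : ℝ) := by
            have e2 : (m:ℝ)^(-(5/91) : ℝ) = y^(-(5/48) : ℝ) := by
              rw [hy, ← Real.rpow_mul hm0.le]
              norm_num
            rw [e2]
            refine Real.rpow_le_rpow_of_nonpos (by linarith) ?_ (by norm_num)
            rw [hn, hc]; exact Nat.le_ceil y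
          have : 0 < 2 * (β^(-(5/36) : ℝ) * s^(5/36 : ℝ)) := by positivity
          linarith
        · rw [hn, hc]
          linarith
      have hsub : Big (m : ENNReal) ⊆ Rch n ∪ {ω | (m : ENNReal) ≤ cnt (bx n) ω} := by
        intro ω hω
        by_cases hR : ω ∈ Rch n
        · exact Or.inl hR
        · right
          have h4 : cluster0 ω ⊆ ↑(bx n) := by
            intro x hx
            rw [Finset.mem_coe, mem_bx']
            by_contra h5
            exact hR (mem_Rch.2 ⟨x, hx, by omega⟩)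
          exact le_trans hω (encard_le_cnt h4)
      have h7 : bondLaw p {ω | (m : ENNReal) ≤ cnt (bx n) ω} ≤
          ENNReal.ofReal (64 * C2 * (m:ℝ)^(-(5/91) : ℝ)) := by
        have hm1 : (m : ENNReal) ≠ 0 := by
          rw [Ne, Nat.cast_eq_zero]; omega
        have h8 := meas_ge_le_lintegral_div (μ := bondLaw p)
          (meas_cnt (bx n)).aemeasurable hm1 (ENNReal.natCast_ne_top m)
        refine h8.trans ?_
        refine (ENNReal.div_le_div_right (cnt_win hC2 hn1 h6) _).trans ?_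
        rw [← ENNReal.ofReal_natCast m, ← ENNReal.ofReal_div_of_pos hm0]
        apply ENNReal.ofReal_le_ofReal
        rw [div_le_iff₀ hm0]
        have e2 : (n:ℝ)^(43/24 : ℝ) ≤ 4 * y^(43/24 : ℝ) := by
          calc (n:ℝ)^(43/24 : ℝ) ≤ (2 * y)^(43/24 : ℝ) :=
                Real.rpow_le_rpow (by positivity) hn2 (by norm_num)
            _ = (2:ℝ)^(43/24 : ℝ) * y^(43/24 : ℝ) := Real.mul_rpow (by norm_num) (by linarith)
            _ ≤ 4 * y^(43/24 : ℝ) := by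
                apply mul_le_mul_of_nonneg_right _ (by positivity)
                calc (2:ℝ)^(43/24 : ℝ) ≤ (2:ℝ)^(2:ℝ) :=
                      Real.rpow_le_rpow_of_exponent_le (by norm_num) (by norm_num)
                  _ = 4 := by norm_num
        have e3 : y^(43/24 : ℝ) = (m:ℝ)^(-(5/91) : ℝ) * m := by
          have : (m:ℝ)^(-(5/91) : ℝ) * m = (m:ℝ)^(-(5/91) : ℝ) * (m:ℝ)^(1:ℝ) := by
            rw [Real.rpow_one]
          rw [this, ← Real.rpow_add hm0, hy, ← Real.rpow_mul hm0.le]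
          norm_num
        calc 16 * C2 * (n:ℝ)^(43/24 : ℝ) ≤ 16 * C2 * (4 * y^(43/24 : ℝ)) :=
              mul_le_mul_of_nonneg_left e2 (by linarith)
          _ = 64 * C2 * (m:ℝ)^(-(5/91) : ℝ) * m := by rw [e3]; ring
      calc bondLaw p (Big (m : ENNReal))
          ≤ bondLaw p (Rch n) + bondLaw p {ω | (m : ENNReal) ≤ cnt (bx n) ω} :=
            (measure_mono hsub).trans (measure_union_le _ _)
        _ ≤ ENNReal.ofReal (C2 * ((m:ℝ)^(-(5/91) : ℝ) + 2 * (β^(-(5/36) : ℝ) * s^(5/36 : ℝ)))) +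
              ENNReal.ofReal (64 * C2 * (m:ℝ)^(-(5/91) : ℝ)) := by
            rw [Rch_law]
            exact add_le_add (ENNReal.ofReal_le_ofReal harm) h7
        _ ≤ _ := by
            rw [← ENNReal.ofReal_add (by positivity) (by positivity)]
            apply ENNReal.ofReal_le_ofReal
            have e4 : 0 ≤ C1 * ((m:ℝ)^(-(5/91) : ℝ) + s^(5/36 : ℝ)) := by positivity
            have e5 : 0 ≤ β^(-(5/36) : ℝ) * ((m:ℝ)^(-(5/91) : ℝ) + s^(5/36 : ℝ)) := by positivity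
            have e6 : 0 ≤ 66 * C2 * s^(5/36 : ℝ) := by positivity
            have e7 : 0 ≤ 2 * C2 * β^(-(5/36) : ℝ) * (m:ℝ)^(-(5/91) : ℝ) := by positivity
            have e8 : 0 ≤ C2 * (m:ℝ)^(-(5/91) : ℝ) := by positivity
            nlinarith

end Pool.Agent.Y976.WP.Planar
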