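import Pool.Agent.Y976.WP.Geo
import Pool.Agent.Y976.WP.Planar

set_option autoImplicit false
set_option linter.unusedSectionVars false
set_option linter.unusedVariables false

/-! Weakly coupled planes: the main bounds. -/

namespace Pool.Agent.Y976.WP

open MeasureTheory ProbabilityTheory Set
open scoped ENNReal

/-- A graph on `ℤ² × I` which contains the planes; the cross edges at a vertex have probabilities
with sum at most `δ`. -/
structure Stk {I : Type} (G : SimpleGraph ((ℤ × ℤ) × I)) (r : Sym2 ((ℤ × ℤ) × I) → unitInterval)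
    (δ : ℝ) : Prop where
  le : planes I ≤ G
  fin : ∀ v, {w | G.Adj v w}.Finite
  cross : ∀ (v : (ℤ × ℤ) × I) (s : Finset ((ℤ × ℤ) × I)),
    (∀ w ∈ s, G.Adj v w ∧ ¬ (planes I).Adj v w) → ∑ w ∈ s, (r s(v, w) : ℝ) ≤ δ

theorem Stk.nonneg {I : Type} {G : SimpleGraph ((ℤ × ℤ) × I)}
    {r : Sym2 ((ℤ × ℤ) × I) → unitInterval} {δ : ℝ} (h : Stk G r δ) (v : (ℤ × ℤ) × I) :
    0 ≤ δ := by
  simpa using h.cross v ∅ (by simp)

theorem Stk.nb {I : Type} {G : SimpleGraph ((ℤ × ℤ) × I)}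
    {r : Sym2 ((ℤ × ℤ) × I) → unitInterval} {δ : ℝ} (h : Stk G r δ) :
    ∃ Nb : ((ℤ × ℤ) × I) → Finset ((ℤ × ℤ) × I),
      (∀ v w, G.Adj v w → s(v, w) ∉ (planes I).edgeSet → w ∈ Nb v) ∧
      ∀ p : unitInterval, ∀ v, ∑ w ∈ Nb v, mu (edgeLaw G r p)
        {ω | op G (planes I).edgeSetᶜ ω v w} ≤ ENNReal.ofReal δ := by
  classical
  refine ⟨fun v => (h.fin v).toFinset.filter (fun w => ¬ (planes I).Adj v w), ?_, ?_⟩
  · intro v w h1 h2
    rw [SimpleGraph.mem_edgeSet] at h2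
    simp only [Finset.mem_filter, Set.Finite.mem_toFinset, mem_ofPred_eq]
    exact ⟨h1, h2⟩
  · intro p v
    calc ∑ w ∈ (h.fin v).toFinset.filter (fun w => ¬ (planes I).Adj v w), mu (edgeLaw G r p)
          {ω | op G (planes I).edgeSetᶜ ω v w}
        ≤ ∑ w ∈ (h.fin v).toFinset.filter (fun w => ¬ (planes I).Adj v w),
            ENNReal.ofReal (r s(v, w)) := Finset.sum_le_sum fun w _ => mu_cross r p
      _ = ENNReal.ofReal (∑ w ∈ (h.fin v).toFinset.filter (fun w => ¬ (planes I).Adj v w),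
            (r s(v, w) : ℝ)) := by
          rw [ENNReal.ofReal_sum_of_nonneg (fun w _ => (r s(v, w)).2.1)]
      _ ≤ ENNReal.ofReal δ := by
          apply ENNReal.ofReal_le_ofReal
          apply h.cross
          intro w hw
          simpa using hw

theorem sumH : ∀ n : ℕ, ∑ m ∈ Finset.Icc 1 n, (m : ℝ) ^ (-(5/91) : ℝ) ≤
    (n : ℝ) ^ (86/91 : ℝ) / (86/91) := by
  intro n
  have h := sum_Icc_rpow (a := 5/91) (by norm_num)
    (fun D => Pool.Agent.Y554.NC.sum_range_rpow (by norm_num) (by norm_num) D) n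
  have e : (1 - 5/91 : ℝ) = 86/91 := by norm_num
  rw [e] at h
  exact h

/-- Upper bound for the percolation probability, all parameters. -/
theorem perc_upper : ∃ C : ℝ, 0 < C ∧ ∀ (I : Type) [Countable I] (G : SimpleGraph ((ℤ × ℤ) × I))
    (r : Sym2 ((ℤ × ℤ) × I) → unitInterval) (δ : ℝ), Stk G r δ →
    ∀ (p : unitInterval) (v : (ℤ × ℤ) × I),
      mu (edgeLaw G r p) {ω | sz G univ univ v ω = ⊤} ≤
        ENNReal.ofReal (C * (max 0 ((p:ℝ) - 1/2))^(5/36 : ℝ) + C * δ^(5/86 : ℝ)) := by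
  obtain ⟨C, hC, hbig⟩ := Planar.big_all
  refine ⟨(8 * C)^2, by positivity, ?_⟩
  intro I _ G r δ h p v
  have hδ := h.nonneg v
  obtain ⟨Nb, hN, hNb⟩ := h.nb
  obtain ⟨b, hb⟩ : ∃ b : ℝ, b = (max 0 ((p:ℝ) - 1/2))^(5/36 : ℝ) := ⟨_, rfl⟩
  have hb0 : 0 ≤ b := by rw [hb]; positivity
  have hQ : ∀ (u : (ℤ × ℤ) × I) (m : ℕ), 1 ≤ m → mu (edgeLaw G r p)
      {ω | (m : ℝ≥0∞) ≤ sz G (planes I).edgeSet univ u ω} ≤
        ENNReal.ofReal (C * ((m:ℝ)^(-(5/91) : ℝ) + b)) := by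
    intro u m hm
    rw [plane_tail h.le r p u]
    have := hbig p m hm
    rw [← hb] at this
    exact this
  obtain ⟨F, hF1, hF, hrec⟩ := perc_rec (edgeLaw G r p) Nb hN (hNb p) _ hQ
  have hFt : F ≠ ⊤ := (lt_of_le_of_lt hF1 ENNReal.one_lt_top).ne
  obtain ⟨f, hf⟩ : ∃ f : ℝ, f = F.toReal := ⟨_, rfl⟩
  have hf0 : 0 ≤ f := by rw [hf]; exact ENNReal.toReal_nonneg
  have hFf : F = ENNReal.ofReal f := by rw [hf, ENNReal.ofReal_toReal hFt]
  have hf1 : f ≤ 1 := by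
    rw [hf]
    exact ENNReal.toReal_le_of_le_ofReal (by norm_num) (by simpa using hF1)
  have hrec' : ∀ n : ℕ, 1 ≤ n → f ≤ C * ((n:ℝ)^(-(5/91) : ℝ) + b) +
      (∑ m ∈ Finset.Icc 1 n, C * ((m:ℝ)^(-(5/91) : ℝ) + b)) * (δ * f) := by
    intro n hn
    have h1 := hrec n hn
    rw [hFf, ← ENNReal.ofReal_sum_of_nonneg (fun m _ => by positivity),
      ← ENNReal.ofReal_mul hδ, ← ENNReal.ofReal_mul (Finset.sum_nonneg fun m _ => by positivity),
      ← ENNReal.ofReal_add (by positivity)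
        (mul_nonneg (Finset.sum_nonneg fun m _ => by positivity) (by positivity))] at h1
    refine (ENNReal.ofReal_le_ofReal_iff ?_).1 h1
    exact add_nonneg (by positivity)
      (mul_nonneg (Finset.sum_nonneg fun m _ => by positivity) (by positivity))
  have hsol := solve_rec hC hb0 hδ hf0 hf1 sumH hrec'
  refine (hF univ v).trans ?_
  rw [hFf, ← hb]
  apply ENNReal.ofReal_le_ofReal
  have h8 : 8 * C ≤ (8 * C)^2 := by nlinarith
  have h9 : 8 * C * b ≤ (8 * C)^2 * b := mul_le_mul_of_nonneg_right h8 hb0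
  linarith

/-- The subcritical regime. -/
theorem mean_upper : ∃ c C : ℝ, 0 < c ∧ 0 < C ∧ ∀ (I : Type) [Countable I]
    (G : SimpleGraph ((ℤ × ℤ) × I))
    (r : Sym2 ((ℤ × ℤ) × I) → unitInterval) (δ : ℝ), Stk G r δ →
    ∀ (p : unitInterval) (v : (ℤ × ℤ) × I), (p:ℝ) < 1/2 →
      δ ≤ c * (1/2 - (p:ℝ))^(43/18 : ℝ) →
      ∫⁻ ω, sz G univ univ v ω ∂(mu (edgeLaw G r p)) ≤
        ENNReal.ofReal (C * (1/2 - (p:ℝ))^(-(43/18) : ℝ)) := by
  obtain ⟨C, hC, hsig⟩ := Pool.Agent.W424.NC.sigma_upper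
  refine ⟨1 / (2 * C), 2 * C, by positivity, by positivity, ?_⟩
  intro I _ G r δ h p v hp hδc
  have hδ := h.nonneg v
  obtain ⟨Nb, hN, hNb⟩ := h.nb
  have hs : 0 < 1/2 - (p:ℝ) := by linarith
  have hs1 : 0 < (1/2 - (p:ℝ))^(43/18 : ℝ) := Real.rpow_pos_of_pos hs _
  have hs2 : 0 < (1/2 - (p:ℝ))^(-(43/18) : ℝ) := Real.rpow_pos_of_pos hs _
  have hs3 : (1/2 - (p:ℝ))^(43/18 : ℝ) * (1/2 - (p:ℝ))^(-(43/18) : ℝ) = 1 := by
    rw [← Real.rpow_add hs]
    norm_num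
  have h1 := mean_bound (edgeLaw G r p) Nb hN (hNb p)
    (σ := ENNReal.ofReal (C * (1/2 - (p:ℝ))^(-(43/18) : ℝ)))
    (fun u => by rw [plane_mean h.le r p u]; exact hsig p hp) ENNReal.ofReal_ne_top ?_ v
  · refine h1.trans (le_of_eq ?_)
    rw [show (2:ℝ≥0∞) = ENNReal.ofReal 2 by simp, ← ENNReal.ofReal_mul (by norm_num)]
    congr 1
    ring
  · rw [show (2:ℝ≥0∞) = ENNReal.ofReal 2 by simp, ← ENNReal.ofReal_mul hδ,
      ← ENNReal.ofReal_mul (by norm_num), ← ENNReal.ofReal_one]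
    apply ENNReal.ofReal_le_ofReal
    calc 2 * (δ * (C * (1/2 - (p:ℝ))^(-(43/18) : ℝ)))
        ≤ 2 * ((1 / (2 * C) * (1/2 - (p:ℝ))^(43/18 : ℝ)) * (C * (1/2 - (p:ℝ))^(-(43/18) : ℝ))) := by
          have : 0 < C * (1/2 - (p:ℝ))^(-(43/18) : ℝ) := by positivity
          have := mul_le_mul_of_nonneg_right hδc this.le
          linarith
      _ = (1/2 - (p:ℝ))^(43/18 : ℝ) * (1/2 - (p:ℝ))^(-(43/18) : ℝ) := by
          field_simp
      _ = 1 := hs3

/-- Lower bounds by the planes. -/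
theorem sz_ge {I : Type} [Countable I] {G : SimpleGraph ((ℤ × ℤ) × I)} (v : (ℤ × ℤ) × I)
    (ω : G.edgeSet → Bool) :
    sz G (planes I).edgeSet univ v ω ≤ sz G univ univ v ω := by
  unfold sz
  exact_mod_cast Set.encard_le_encard (cl_monoK (subset_univ _) univ v)

theorem perc_lower : ∃ c : ℝ, 0 < c ∧ ∀ (I : Type) [Countable I]
    (G : SimpleGraph ((ℤ × ℤ) × I))
    (r : Sym2 ((ℤ × ℤ) × I) → unitInterval) (δ : ℝ), Stk G r δ →
    ∀ (p : unitInterval) (v : (ℤ × ℤ) × I), (1/2 : ℝ) < p →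
      ENNReal.ofReal (c * ((p:ℝ) - 1/2)^(5/36 : ℝ)) ≤
        mu (edgeLaw G r p) {ω | sz G univ univ v ω = ⊤} := by
  obtain ⟨c, hc, hth⟩ := Pool.Agent.Y554.NC.theta_lower'
  refine ⟨c, hc, ?_⟩
  intro I _ G r δ h p v hp
  have h1 := hth p hp
  have h2 : mu (edgeLaw G r p) {ω | ⊤ ≤ sz G (planes I).edgeSet univ v ω} ≤
      mu (edgeLaw G r p) {ω | sz G univ univ v ω = ⊤} := by
    refine measure_mono fun ω hω => ?_
    have h3 : (⊤ : ℝ≥0∞) ≤ sz G (planes I).edgeSet univ v ω := hω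
    exact top_le_iff.1 (h3.trans (sz_ge v ω))
  refine le_trans ?_ h2
  rw [plane_tail h.le r p v]
  have h4 : {ω : H974.sqLattice.edgeSet → Bool | (⊤ : ℝ≥0∞) ≤
      ((H974.cluster0 ω).encard : ℝ≥0∞)} = {ω | (H974.cluster0 ω).Infinite} := by
    ext ω
    simp
  rw [h4]
  have h5 : H974.bondLaw p {ω | (H974.cluster0 ω).Infinite} = ENNReal.ofReal (H974.theta p) := by
    unfold H974.theta
    rw [measureReal_def, ENNReal.ofReal_toReal]
    have : IsProbabilityMeasure (H974.bondLaw p) := by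
      unfold H974.bondLaw; infer_instance
    exact measure_ne_top _ _
  rw [h5]
  exact ENNReal.ofReal_le_ofReal h1

theorem mean_lower : ∃ c : ℝ, 0 < c ∧ ∀ (I : Type) [Countable I]
    (G : SimpleGraph ((ℤ × ℤ) × I))
    (r : Sym2 ((ℤ × ℤ) × I) → unitInterval) (δ : ℝ), Stk G r δ →
    ∀ (p : unitInterval) (v : (ℤ × ℤ) × I), (p:ℝ) < 1/2 →
      ENNReal.ofReal (c * (1/2 - (p:ℝ))^(-(43/18) : ℝ)) ≤
        ∫⁻ ω, sz G univ univ v ω ∂(mu (edgeLaw G r p)) := by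
  obtain ⟨c, hc, hs⟩ := Pool.Agent.Y554.NC.sigma_lower
  refine ⟨c, hc, ?_⟩
  intro I _ G r δ h p v hp
  have h1 := hs p hp
  refine h1.trans ?_
  have h2 : H974.sigma p = ∫⁻ ω, sz G (planes I).edgeSet univ v ω ∂(mu (edgeLaw G r p)) := by
    rw [plane_mean h.le r p v]
    rfl
  rw [h2]
  exact lintegral_mono fun ω => sz_ge v ω

end Pool.Agent.Y976.WP
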