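import Mathlib

set_option autoImplicit false
set_option linter.unusedSectionVars false
set_option linter.unusedVariables false

/-! Independent bond percolation on a countable graph, with an arbitrary law on every edge:
basic events and independence. `K` is a set of edges; clusters are built from the open edges that
belong to `K` and have both ends in the allowed set `A`. -/

namespace Pool.Agent.Y976.WP

open MeasureTheory ProbabilityTheory Set
open scoped ENNReal

theorem ind_meas {Ω : Type} {m : MeasurableSpace Ω} {A : Set Ω} (hA : MeasurableSet A) :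
    Measurable (A.indicator (fun _ => (1:ℝ≥0∞))) := measurable_const.indicator hA

theorem tsum_meas {Ω ι : Type} [Countable ι] {m : MeasurableSpace Ω} (f : ι → Ω → ℝ≥0∞)
    (hf : ∀ i, Measurable (f i)) : Measurable (fun ω => ∑' i, f i ω) := by
  exact Measurable.tsum hf

section meas
variable {E : Type} (ν : E → Measure Bool) [∀ e, IsProbabilityMeasure (ν e)]

/-- product measure -/
noncomputable def mu : Measure (E → Bool) := Measure.infinitePi ν

instance : IsProbabilityMeasure (mu ν) := by unfold mu; infer_instance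

@[reducible] def cs {E : Type} (I : Set E) : MeasurableSpace (E → Bool) :=
  ⨆ i ∈ I, MeasurableSpace.comap (fun ω : E → Bool => ω i) inferInstance

theorem cs_le (I : Set E) : cs I ≤ (MeasurableSpace.pi : MeasurableSpace (E → Bool)) := by
  refine iSup₂_le fun i _ => ?_
  exact (measurable_pi_apply i).comap_le

theorem cs_mono {I J : Set E} (h : I ⊆ J) : cs I ≤ cs J :=
  biSup_mono (fun _ hi => h hi)

theorem cs_coord {I : Set E} {e : E} (he : e ∈ I) (b : Bool) :
    MeasurableSet[cs I] {ω : E → Bool | ω e = b} := by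
  have h : MeasurableSpace.comap (fun ω : E → Bool => ω e) inferInstance ≤ cs I :=
    le_iSup₂_of_le e he le_rfl
  apply h
  exact ⟨{b}, MeasurableSet.singleton b, by ext; simp⟩

theorem iIndep_coord :
    iIndep (fun i : E => MeasurableSpace.comap (fun ω : E → Bool => ω i) inferInstance)
      (mu ν) := by
  have := iIndepFun_infinitePi (ι := E) (Ω := fun _ => Bool)
    (P := ν) (X := fun _ b => b) (by fun_prop)
  exact this

theorem indep_cs {I J : Set E} (h : Disjoint I J) :
    Indep (cs I) (cs J) (mu ν) :=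
  indep_iSup_of_disjoint (fun i => (measurable_pi_apply i).comap_le) (iIndep_coord ν) h

theorem mu_inter {I J : Set E} (h : Disjoint I J)
    {A B : Set (E → Bool)} (hA : MeasurableSet[cs I] A) (hB : MeasurableSet[cs J] B) :
    mu ν (A ∩ B) = mu ν A * mu ν B :=
  (Indep_iff _ _ _).1 (indep_cs ν h) A B hA hB

/-- integral of a function over an event, both determined by disjoint sets of edges -/
theorem lint_inter {I J : Set E} (h : Disjoint I J)
    {A : Set (E → Bool)} {f : (E → Bool) → ℝ≥0∞} (hA : MeasurableSet[cs I] A)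
    (hf : Measurable[cs J] f) :
    ∫⁻ ω in A, f ω ∂(mu ν) = mu ν A * ∫⁻ ω, f ω ∂(mu ν) := by
  have hA' : MeasurableSet A := cs_le I _ hA
  have h1 : Measurable[cs I] (A.indicator (fun _ => (1:ℝ≥0∞))) := ind_meas hA
  have h2 := lintegral_mul_eq_lintegral_mul_lintegral_of_independent_measurableSpace
    (cs_le I) (cs_le J) (indep_cs ν h) h1 hf
  have h3 : ∫⁻ ω, A.indicator (fun _ => (1:ℝ≥0∞)) ω ∂(mu ν) = mu ν A :=
    lintegral_indicator_one hA'
  rw [h3] at h2
  rw [← h2, ← lintegral_indicator hA']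
  congr 1
  funext ω
  by_cases hω : ω ∈ A
  · simp [hω]
  · simp [hω]

theorem mu_coord (e : E) : mu ν {ω | ω e = true} = ν e {true} := by
  have h := Measure.infinitePi_map_eval ν e
  have h2 : mu ν {ω | ω e = true} = ((mu ν).map (fun x => x e)) {true} := by
    rw [Measure.map_apply (measurable_pi_apply e) (MeasurableSet.singleton _)]
    rfl
  rw [h2]
  unfold mu
  rw [h]

theorem map_comp_inj {E' : Type} (ι : E' → E) (hι : Function.Injective ι) :
    (mu ν).map (fun ω e => ω (ι e)) = mu (fun e' => ν (ι e')) := by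
  classical
  have hm : Measurable (fun (ω : E → Bool) (e : E') => ω (ι e)) :=
    measurable_pi_lambda _ fun e => measurable_pi_apply _
  refine Measure.eq_infinitePi _ fun s t ht => ?_
  rw [Measure.map_apply hm (MeasurableSet.pi s.countable_toSet (fun i _ => ht i))]
  have hex : ∀ e ∈ s.image ι, ∃ e' ∈ s, ι e' = e := by
    intro e he
    simpa using he
  let t' : E → Set Bool := fun e => if h : ∃ e', ι e' = e then t h.choose else Set.univ
  have ht' : ∀ e', t' (ι e') = t e' := by
    intro e'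
    have h : ∃ e'', ι e'' = ι e' := ⟨e', rfl⟩
    simp only [t']
    rw [dif_pos h, hι h.choose_spec]
  have hset : (fun (ω : E → Bool) (e : E') => ω (ι e)) ⁻¹' (Set.pi s t) =
      Set.pi (s.image ι : Finset E) t' := by
    ext ω
    simp only [Set.mem_preimage, Set.mem_pi, Finset.mem_coe, Finset.mem_image]
    constructor
    · rintro h e ⟨e', he', rfl⟩
      rw [ht']; exact h e' he'
    · intro h e' he'
      have := h (ι e') ⟨e', he', rfl⟩
      rwa [ht'] at this
  rw [hset]
  unfold mu
  rw [Measure.infinitePi_pi]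
  · rw [Finset.prod_image (fun a _ b _ h => hι h)]
    refine Finset.prod_congr rfl fun e _ => ?_
    rw [ht']
  · intro e he
    exact (Set.toFinite _).measurableSet

end meas

section graph
variable {V : Type} (G : SimpleGraph V) (K : Set (Sym2 V))

/-- the edge `xy` belongs to `K` and is open -/
def op (ω : G.edgeSet → Bool) (x y : V) : Prop :=
  ∃ h : s(x, y) ∈ G.edgeSet, s(x, y) ∈ K ∧ ω ⟨s(x, y), h⟩ = true

/-- reachability by open edges of `K` inside `A` -/
inductive Rch (ω : G.edgeSet → Bool) (A : Set V) (x : V) : V → Prop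
  | refl (hx : x ∈ A) : Rch ω A x x
  | tail {y z : V} (h : Rch ω A x y) (hz : z ∈ A) (ho : op G K ω y z) : Rch ω A x z

/-- the cluster of `x` in `A` by open edges of `K` -/
def cl (ω : G.edgeSet → Bool) (A : Set V) (x : V) : Set V := {y | Rch G K ω A x y}

/-- size of the cluster -/
noncomputable def sz (A : Set V) (x : V) (ω : G.edgeSet → Bool) : ℝ≥0∞ :=
  ((cl G K ω A x).encard : ℝ≥0∞)

variable {G K}

theorem op.adj {ω : G.edgeSet → Bool} {x y : V} (h : op G K ω x y) : G.Adj x y := by
  obtain ⟨h, _⟩ := h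
  simpa using h

theorem Rch.left_mem {ω : G.edgeSet → Bool} {A : Set V} {x y : V} (h : Rch G K ω A x y) :
    x ∈ A := by
  induction h with
  | refl hx => exact hx
  | tail _ _ _ ih => exact ih

theorem Rch.right_mem {ω : G.edgeSet → Bool} {A : Set V} {x y : V} (h : Rch G K ω A x y) :
    y ∈ A := by
  cases h with
  | refl hx => exact hx
  | tail _ hz _ => exact hz

theorem op.symm {ω : G.edgeSet → Bool} {x y : V} (h : op G K ω x y) : op G K ω y x := by
  obtain ⟨h, h1, h2⟩ := h
  have h' : s(y, x) ∈ G.edgeSet := by rw [Sym2.eq_swap]; exact h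
  refine ⟨h', by rw [Sym2.eq_swap]; exact h1, ?_⟩
  rw [← h2]
  congr 1
  exact Subtype.ext Sym2.eq_swap

theorem Rch.trans {ω : G.edgeSet → Bool} {A : Set V} {x y z : V} (h : Rch G K ω A x y)
    (h' : Rch G K ω A y z) : Rch G K ω A x z := by
  induction h' with
  | refl _ => exact h
  | tail _ hz ho ih => exact ih.tail hz ho

theorem Rch.head {ω : G.edgeSet → Bool} {A : Set V} {x y z : V} (hx : x ∈ A)
    (ho : op G K ω x y) (h : Rch G K ω A y z) : Rch G K ω A x z :=
  ((Rch.refl hx).tail h.left_mem ho).trans h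

theorem rch_iff_reachable {ω : G.edgeSet → Bool} {x y : V} :
    (SimpleGraph.fromEdgeSet {e : Sym2 V | ∃ h : e ∈ G.edgeSet, ω ⟨e, h⟩ = true}).Reachable x y ↔
      Rch G univ ω univ x y := by
  constructor
  · rintro ⟨w⟩
    induction w with
    | nil => exact Rch.refl (mem_univ _)
    | cons h _ ih =>
      rw [SimpleGraph.fromEdgeSet_adj] at h
      obtain ⟨⟨h1, h2⟩, -⟩ := h
      exact Rch.head (mem_univ _) ⟨h1, mem_univ _, h2⟩ ih
  · intro h
    induction h with
    | refl _ => exact SimpleGraph.Reachable.refl _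
    | tail _ _ ho ih =>
      refine ih.trans (SimpleGraph.Adj.reachable ?_)
      rw [SimpleGraph.fromEdgeSet_adj]
      obtain ⟨h1, h2, h3⟩ := ho
      exact ⟨⟨h1, h3⟩, (op.adj ⟨h1, h2, h3⟩).ne⟩

theorem op.mono {K' : Set (Sym2 V)} (hK : K ⊆ K') {ω : G.edgeSet → Bool} {x y : V}
    (h : op G K ω x y) : op G K' ω x y := by
  obtain ⟨h1, h2, h3⟩ := h
  exact ⟨h1, hK h2, h3⟩

theorem Rch.mono {ω : G.edgeSet → Bool} {A B : Set V} (hAB : A ⊆ B) {x y : V}
    (h : Rch G K ω A x y) : Rch G K ω B x y := by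
  induction h with
  | refl hx => exact Rch.refl (hAB hx)
  | tail _ hz ho ih => exact ih.tail (hAB hz) ho

theorem Rch.monoK {K' : Set (Sym2 V)} (hK : K ⊆ K') {ω : G.edgeSet → Bool} {A : Set V} {x y : V}
    (h : Rch G K ω A x y) : Rch G K' ω A x y := by
  induction h with
  | refl hx => exact Rch.refl hx
  | tail _ hz ho ih => exact ih.tail hz (ho.mono hK)

theorem cl_mono {ω : G.edgeSet → Bool} {A B : Set V} (hAB : A ⊆ B) (x : V) :
    cl G K ω A x ⊆ cl G K ω B x := fun _ h => Rch.mono hAB h

theorem cl_monoK {K' : Set (Sym2 V)} (hK : K ⊆ K') {ω : G.edgeSet → Bool} (A : Set V) (x : V) :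
    cl G K ω A x ⊆ cl G K' ω A x := fun _ h => Rch.monoK hK h

theorem cl_sub {ω : G.edgeSet → Bool} {A : Set V} (x : V) : cl G K ω A x ⊆ A :=
  fun _ h => Rch.right_mem h

theorem cl_empty {ω : G.edgeSet → Bool} {A : Set V} {x : V} (hx : x ∉ A) :
    cl G K ω A x = ∅ := by
  ext y
  simp only [mem_empty_iff_false, iff_false]
  intro h
  exact hx (Rch.left_mem h)

/-- the path stays in the cluster -/
theorem Rch.in_cl {ω : G.edgeSet → Bool} {A : Set V} {x y : V} (h : Rch G K ω A x y) :
    Rch G K ω (cl G K ω A x) x y := by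
  induction h with
  | refl hx => exact Rch.refl (show Rch G K ω A x x from Rch.refl hx)
  | @tail y z hxy hz ho ih => exact ih.tail (show Rch G K ω A x z from hxy.tail hz ho) ho

/-- edges of `K` inside `A` -/
def ein (G : SimpleGraph V) (K : Set (Sym2 V)) (A : Set V) : Set G.edgeSet :=
  {e | e.1 ∈ K ∧ ∀ v ∈ e.1, v ∈ A}

/-- edges of `K` touching `S` -/
def etc (G : SimpleGraph V) (K : Set (Sym2 V)) (S : Set V) : Set G.edgeSet :=
  {e | e.1 ∈ K ∧ ∃ v ∈ e.1, v ∈ S}

theorem ein_mono {K' : Set (Sym2 V)} (hK : K ⊆ K') {A B : Set V} (h : A ⊆ B) :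
    ein G K A ⊆ ein G K' B :=
  fun _ he => ⟨hK he.1, fun v hv => h (he.2 v hv)⟩

theorem meas_op {I : Set G.edgeSet} {x y : V}
    (hI : ∀ h : s(x, y) ∈ G.edgeSet, s(x, y) ∈ K → ⟨s(x, y), h⟩ ∈ I) :
    MeasurableSet[cs I] {ω | op G K ω x y} := by
  by_cases h : s(x, y) ∈ G.edgeSet ∧ s(x, y) ∈ K
  · have : {ω | op G K ω x y} = {ω | ω ⟨s(x, y), h.1⟩ = true} := by
      ext ω; simp only [mem_ofPred_eq, op]
      exact ⟨fun ⟨_, _, h2⟩ => h2, fun h2 => ⟨h.1, h.2, h2⟩⟩
    rw [this]
    exact cs_coord (hI h.1 h.2) true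
  · have : {ω | op G K ω x y} = ∅ := by
      ext ω; simp only [mem_ofPred_eq, op, mem_empty_iff_false, iff_false]
      rintro ⟨h1, h2, _⟩; exact h ⟨h1, h2⟩
    rw [this]
    exact @MeasurableSet.empty _ (cs I)

/-- `n`-step reachability -/
def RchN (G : SimpleGraph V) (K : Set (Sym2 V)) (ω : G.edgeSet → Bool) (A : Set V) (x : V) :
    ℕ → V → Prop
  | 0, y => x = y ∧ x ∈ A
  | n + 1, y => ∃ z, RchN G K ω A x n z ∧ z ∈ A ∧ op G K ω z y ∧ y ∈ A

theorem RchN_mem {ω : G.edgeSet → Bool} {A : Set V} {x : V} : ∀ {n : ℕ} {y : V},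
    RchN G K ω A x n y → y ∈ A
  | 0, y, h => h.1 ▸ h.2
  | n + 1, y, ⟨z, _, _, _, h⟩ => h

theorem rch_iff_rchN {ω : G.edgeSet → Bool} {A : Set V} {x y : V} :
    Rch G K ω A x y ↔ ∃ n, RchN G K ω A x n y := by
  constructor
  · intro h
    induction h with
    | refl hx => exact ⟨0, rfl, hx⟩
    | tail _ hz ho ih =>
      obtain ⟨n, hn⟩ := ih
      exact ⟨n + 1, _, hn, RchN_mem hn, ho, hz⟩
  · rintro ⟨n, hn⟩
    induction n generalizing y with
    | zero => obtain ⟨rfl, hx⟩ := hn; exact Rch.refl hx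
    | succ n ih =>
      obtain ⟨z, hz, _, ho, hy⟩ := hn
      exact (ih hz).tail hy ho

theorem meas_rchN [Countable V] (A : Set V) (x : V) : ∀ (n : ℕ) (y : V),
    MeasurableSet[cs (ein G K A)] {ω | RchN G K ω A x n y}
  | 0, y => by
    by_cases h : x = y ∧ x ∈ A
    · have : {ω : G.edgeSet → Bool | RchN G K ω A x 0 y} = univ := by
        ext ω; simp [RchN, h.1, h.1 ▸ h.2]
      rw [this]; exact @MeasurableSet.univ _ (cs (ein G K A))
    · have : {ω : G.edgeSet → Bool | RchN G K ω A x 0 y} = ∅ := by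
        ext ω
        simp only [RchN, mem_ofPred_eq, mem_empty_iff_false, iff_false]
        exact h
      rw [this]; exact @MeasurableSet.empty _ (cs (ein G K A))
  | n + 1, y => by
    have : {ω : G.edgeSet → Bool | RchN G K ω A x (n + 1) y} =
        ⋃ z : V, {ω | RchN G K ω A x n z} ∩ {ω | z ∈ A ∧ op G K ω z y ∧ y ∈ A} := by
      ext ω
      simp only [RchN, mem_ofPred_eq, mem_iUnion, mem_inter_iff]
    rw [this]
    refine MeasurableSet.iUnion fun z => (meas_rchN A x n z).inter ?_
    by_cases hz : z ∈ A ∧ y ∈ A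
    · have : {ω : G.edgeSet → Bool | z ∈ A ∧ op G K ω z y ∧ y ∈ A} = {ω | op G K ω z y} := by
        ext ω; simp [hz.1, hz.2]
      rw [this]
      refine meas_op fun h hK => ⟨hK, ?_⟩
      intro v hv
      rcases Sym2.mem_iff.1 hv with rfl | rfl
      · exact hz.1
      · exact hz.2
    · have : {ω : G.edgeSet → Bool | z ∈ A ∧ op G K ω z y ∧ y ∈ A} = ∅ := by
        ext ω
        simp only [mem_ofPred_eq, mem_empty_iff_false, iff_false]
        tauto
      rw [this]
      exact @MeasurableSet.empty _ (cs (ein G K A))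

theorem meas_rch [Countable V] (A : Set V) (x y : V) :
    MeasurableSet[cs (ein G K A)] {ω | Rch G K ω A x y} := by
  have : {ω : G.edgeSet → Bool | Rch G K ω A x y} = ⋃ n, {ω | RchN G K ω A x n y} := by
    ext ω; simp only [mem_ofPred_eq, mem_iUnion]; exact rch_iff_rchN
  rw [this]
  exact MeasurableSet.iUnion fun n => meas_rchN A x n y

/-- the size is determined by the edges of `K` in `A` -/
theorem meas_sz [Countable V] (A : Set V) (x : V) : Measurable[cs (ein G K A)] (sz G K A x) := by
  classical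
  have e : sz G K A x = fun ω => ∑' y : V, Set.indicator {ω | Rch G K ω A x y}
      (fun _ => (1 : ℝ≥0∞)) ω := by
    funext ω
    unfold sz
    rw [← ENNReal.tsum_set_one, tsum_subtype (cl G K ω A x) (fun _ => (1 : ℝ≥0∞))]
    rfl
  rw [e]
  exact tsum_meas _ (fun y => ind_meas (meas_rch A x y))

theorem meas_sz' [Countable V] (A : Set V) (x : V) : Measurable (sz G K A x) :=
  (meas_sz A x).mono (cs_le _) le_rfl

theorem sz_mono {A B : Set V} (hAB : A ⊆ B) (x : V) (ω : G.edgeSet → Bool) :
    sz G K A x ω ≤ sz G K B x ω := by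
  unfold sz
  exact_mod_cast Set.encard_le_encard (cl_mono hAB x)

/-- description of the event that the cluster is a given finite set -/
theorem cl_eq_iff {ω : G.edgeSet → Bool} {A : Set V} {u : V} (hu : u ∈ A) {S : Set V} :
    cl G K ω A u = S ↔ (S ⊆ A ∧ u ∈ S) ∧ (∀ y ∈ S, Rch G K ω S u y) ∧
      (∀ v ∈ S, ∀ w ∈ A, w ∉ S → ¬ op G K ω v w) := by
  constructor
  · rintro rfl
    refine ⟨⟨cl_sub u, show Rch G K ω A u u from Rch.refl hu⟩, fun y hy => Rch.in_cl hy, ?_⟩
    intro v hv w hw hwn ho
    exact hwn (show Rch G K ω A u w from Rch.tail hv hw ho)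
  · rintro ⟨⟨h1, h2⟩, h3, h4⟩
    ext y
    constructor
    · intro hy
      have : ∀ y, Rch G K ω A u y → y ∈ S := by
        intro y hy
        induction hy with
        | refl _ => exact h2
        | @tail y z _ hz ho ih =>
          by_contra hn
          exact h4 y ih z hz hn ho
      exact this y hy
    · intro hy
      exact Rch.mono h1 (h3 y hy)

theorem meas_cl_eq [Countable V] {A : Set V} {u : V} (hu : u ∈ A) (S : Set V) :
    MeasurableSet[cs (etc G K S)] {ω | cl G K ω A u = S} := by
  by_cases hS : S ⊆ A ∧ u ∈ S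
  · have : {ω | cl G K ω A u = S} = (⋂ y ∈ S, {ω | Rch G K ω S u y}) ∩
        ⋂ v ∈ S, ⋂ w ∈ A \ S, {ω | op G K ω v w}ᶜ := by
      ext ω
      simp only [mem_ofPred_eq, mem_inter_iff, mem_iInter, mem_sdiff, mem_compl_iff, and_imp]
      rw [cl_eq_iff hu]
      exact ⟨fun h => ⟨h.2.1, h.2.2⟩, fun h => ⟨hS, h.1, h.2⟩⟩
    rw [this]
    refine MeasurableSet.inter ?_ ?_
    · refine MeasurableSet.biInter S.to_countable fun y _ => ?_
      refine cs_mono ?_ _ (meas_rch S u y)
      rintro e ⟨he, he2⟩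
      refine ⟨he, ?_⟩
      obtain ⟨e, heG⟩ := e
      induction e using Sym2.ind with
      | _ a b => exact ⟨a, by simp, he2 a (by simp)⟩
    · refine MeasurableSet.biInter S.to_countable fun v hv => ?_
      refine MeasurableSet.biInter (A \ S).to_countable fun w _ => ?_
      refine MeasurableSet.compl (meas_op fun h hK => ⟨hK, v, by simp, hv⟩)
  · have : {ω : G.edgeSet → Bool | cl G K ω A u = S} = ∅ := by
      ext ω
      simp only [mem_ofPred_eq, mem_empty_iff_false, iff_false]
      intro h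
      exact hS ((cl_eq_iff hu).1 h).1
    rw [this]
    exact @MeasurableSet.empty _ (cs (etc G K S))

/-- exploration of the full cluster through the `K`-cluster `S` of the root -/
theorem cl_explore {ω : G.edgeSet → Bool} {A : Set V} {u : V} {S : Set V}
    (hS : cl G K ω A u = S) :
    cl G univ ω A u ⊆ S ∪ ⋃ v ∈ S, ⋃ w, ⋃ (_ : op G Kᶜ ω v w), cl G univ ω (A \ S) w := by
  intro y hy
  have : ∀ y, Rch G univ ω A u y → y ∈ S ∪ ⋃ v ∈ S, ⋃ w, ⋃ (_ : op G Kᶜ ω v w),
      cl G univ ω (A \ S) w := by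
    intro y hy
    induction hy with
    | refl hu =>
      left
      rw [← hS]
      exact Rch.refl hu
    | @tail y z hxy hz ho ih =>
      by_cases hzS : z ∈ S
      · exact Or.inl hzS
      · right
        by_cases hyS : y ∈ S
        · have hoK : op G Kᶜ ω y z := by
            obtain ⟨h1, h2, h3⟩ := ho
            refine ⟨h1, ?_, h3⟩
            intro hK
            apply hzS
            rw [← hS] at hyS ⊢
            exact Rch.tail hyS hz ⟨h1, hK, h3⟩
          simp only [mem_iUnion]
          exact ⟨y, hyS, z, hoK, Rch.refl ⟨hz, hzS⟩⟩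
        · rcases ih with ih | ih
          · exact absurd ih hyS
          · simp only [mem_iUnion] at ih ⊢
            obtain ⟨v, hv, w, hw, hy⟩ := ih
            exact ⟨v, hv, w, hw, Rch.tail hy ⟨hz, hzS⟩ ho⟩
  exact this y hy

end graph

end Pool.Agent.Y976.WP
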